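import Pool.Agent.Work.MP_b10815_co_flat.Few

set_option autoImplicit false

namespace Pool.Agent.Work.MP_b10815_co_flat

open Pool.Agent.Work.MP_b10815_co

variable {n : ℕ}

/-- a primitive integer direction takes almost as many values on `M C0` as its width allows -/
lemma many_values {C0 : Set (Fin n → ℝ)} (hconv : Convex ℝ C0) (hint : (interior C0).Nonempty)
    {b u : Fin n → ℤ} (hbu : ∑ i, b i * u i = 1) {xp xm : Fin n → ℝ} (hxp : xp ∈ C0)
    (hxm : xm ∈ C0) :
    ∃ κ : ℝ, 0 ≤ κ ∧ ∀ M : ℝ, κ ≤ M → 0 < M → ∀ B : Finset ℝ,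
      (∀ x ∈ C0, IsInt (M • x) → ∑ i, (b i : ℝ) * (M • x) i ∈ B) →
      (M - κ) * ((∑ i, (b i : ℝ) * xp i) - (∑ i, (b i : ℝ) * xm i)) - 1 ≤ B.card := by
  classical
  obtain ⟨c0, hc0⟩ := hint
  obtain ⟨ρ, hρ, hball⟩ := Metric.nhds_basis_closedBall.mem_iff.mp
    (mem_interior_iff_mem_nhds.mp hc0)
  set R : ℝ := 1 + (∑ i, |(b i : ℝ)|) * (∑ i, |(u i : ℝ)|) with hR
  have hR1 : 1 ≤ R := by
    have : 0 ≤ (∑ i, |(b i : ℝ)|) * (∑ i, |(u i : ℝ)|) :=
      mul_nonneg (Finset.sum_nonneg fun i _ => abs_nonneg _)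
        (Finset.sum_nonneg fun i _ => abs_nonneg _)
    linarith
  set κ : ℝ := R / ρ with hκ
  have hκpos : 0 < κ := by positivity
  refine ⟨κ, hκpos.le, ?_⟩
  intro M hM hMpos B hB
  set ℓ := (∑ i, (b i : ℝ) * xp i) - (∑ i, (b i : ℝ) * xm i) with hℓ
  set α := κ * (∑ i, (b i : ℝ) * c0 i) + (M - κ) * (∑ i, (b i : ℝ) * xm i) with hα
  rcases lt_or_ge ((M - κ) * ℓ) 0 with hneg | hnn
  · have : (0 : ℝ) ≤ B.card := by positivity
    linarith
  have hkey : ∀ t : ℤ, α ≤ t → (t : ℝ) ≤ α + (M - κ) * ℓ → (t : ℝ) ∈ B := by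
    intro t ht1 ht2
    obtain ⟨θ, hθ0, hθ1, hθ⟩ : ∃ θ : ℝ, 0 ≤ θ ∧ θ ≤ 1 ∧ (t : ℝ) = α + θ * ((M - κ) * ℓ) := by
      rcases hnn.eq_or_lt with h | h
      · refine ⟨0, le_refl _, zero_le_one, ?_⟩
        rw [← h] at ht2
        linarith
      · refine ⟨((t : ℝ) - α) / ((M - κ) * ℓ), div_nonneg (by linarith) hnn, ?_, ?_⟩
        · rw [div_le_one h]; linarith
        · rw [div_mul_cancel₀ _ h.ne']; ring
    let xθ : Fin n → ℝ := (1 - θ) • xm + θ • xp
    have hxθ : xθ ∈ C0 := hconv hxm hxp (by linarith) hθ0 (by ring)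
    let x : Fin n → ℝ := κ • c0 + (M - κ) • xθ
    have hbx : ∑ i, (b i : ℝ) * x i = t := by
      have h1 : ∑ i, (b i : ℝ) * x i = κ * (∑ i, (b i : ℝ) * c0 i)
          + (M - κ) * ((1 - θ) * (∑ i, (b i : ℝ) * xm i) + θ * (∑ i, (b i : ℝ) * xp i)) := by
        simp only [Finset.mul_sum, ← Finset.sum_add_distrib]
        refine Finset.sum_congr rfl fun i _ => ?_
        simp only [x, xθ, Pi.add_apply, Pi.smul_apply, smul_eq_mul]
        ring
      rw [h1, hθ, hα, hℓ]
      ring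
    let k : ℤ := t - ∑ i, b i * ⌊x i⌋
    let z : Fin n → ℤ := fun i => ⌊x i⌋ + k * u i
    have hbz : ∑ i, b i * z i = t := by
      have h1 : ∑ i, b i * z i = (∑ i, b i * ⌊x i⌋) + k * ∑ i, b i * u i := by
        rw [Finset.mul_sum, ← Finset.sum_add_distrib]
        refine Finset.sum_congr rfl fun i _ => ?_
        simp only [z]; ring
      rw [h1, hbu]
      simp only [k]; ring
    have hk : |(k : ℝ)| ≤ ∑ i, |(b i : ℝ)| := by
      have h1 : (k : ℝ) = ∑ i, (b i : ℝ) * (x i - ⌊x i⌋) := by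
        simp only [k]
        push_cast
        rw [← hbx, ← Finset.sum_sub_distrib]
        exact Finset.sum_congr rfl fun i _ => by ring
      rw [h1]
      refine (Finset.abs_sum_le_sum_abs _ _).trans (Finset.sum_le_sum fun i _ => ?_)
      rw [abs_mul]
      have h2 : |x i - (⌊x i⌋ : ℝ)| ≤ 1 := by
        rw [abs_le]
        constructor <;> linarith [Int.floor_le (x i), Int.lt_floor_add_one (x i)]
      exact mul_le_of_le_one_right (abs_nonneg _) h2
    have hzx : ∀ i, |(z i : ℝ) - x i| ≤ R := by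
      intro i
      have h1 : (z i : ℝ) - x i = ((⌊x i⌋ : ℝ) - x i) + (k : ℝ) * u i := by
        simp only [z]; push_cast; ring
      rw [h1]
      refine (abs_add_le _ _).trans ?_
      have h2 : |(⌊x i⌋ : ℝ) - x i| ≤ 1 := by
        rw [abs_le]
        constructor <;> linarith [Int.floor_le (x i), Int.lt_floor_add_one (x i)]
      have h3 : |(k : ℝ) * u i| ≤ (∑ i, |(b i : ℝ)|) * (∑ i, |(u i : ℝ)|) := by
        rw [abs_mul]
        refine mul_le_mul hk ?_ (abs_nonneg _) (Finset.sum_nonneg fun i _ => abs_nonneg _)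
        exact Finset.single_le_sum (f := fun i => |(u i : ℝ)|) (fun i _ => abs_nonneg _)
          (Finset.mem_univ i)
      rw [hR]; linarith
    let δ : Fin n → ℝ := fun i => ((z i : ℝ) - x i) / κ
    have hδ : c0 + δ ∈ C0 := by
      apply hball
      rw [Metric.mem_closedBall, dist_pi_le_iff hρ.le]
      intro i
      rw [Real.dist_eq]
      simp only [Pi.add_apply, add_sub_cancel_left, δ]
      rw [abs_div, abs_of_pos hκpos, div_le_iff₀ hκpos, hκ]
      have : ρ * (R / ρ) = R := by field_simp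
      rw [this]
      exact hzx i
    have hc : (κ / M) • (c0 + δ) + ((M - κ) / M) • xθ ∈ C0 :=
      hconv hδ hxθ (by positivity) (div_nonneg (by linarith) hMpos.le)
        (by rw [← add_div]; field_simp; ring)
    have hMc : M • ((κ / M) • (c0 + δ) + ((M - κ) / M) • xθ) = fun i => (z i : ℝ) := by
      funext i
      simp only [Pi.add_apply, Pi.smul_apply, smul_eq_mul, δ]
      have hx' : x i = κ * c0 i + (M - κ) * xθ i := rfl
      rw [hx']
      field_simp
      ring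
    have h1 := hB _ hc (by rw [hMc]; exact fun i => ⟨z i, rfl⟩)
    rw [hMc] at h1
    have h2 : ∑ i, (b i : ℝ) * (z i : ℝ) = (t : ℝ) := by
      rw [← hbz]; push_cast; rfl
    rw [← h2]
    exact h1
  have hsub : (Finset.Icc ⌈α⌉ ⌊α + (M - κ) * ℓ⌋).image (fun t : ℤ => (t : ℝ)) ⊆ B := by
    intro r hr
    rw [Finset.mem_image] at hr
    obtain ⟨t, ht, rfl⟩ := hr
    rw [Finset.mem_Icc] at ht
    exact hkey t (Int.ceil_le.mp ht.1) (Int.le_floor.mp ht.2)
  have hcard := Finset.card_le_card hsub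
  rw [Finset.card_image_of_injective _ Int.cast_injective, Int.card_Icc] at hcard
  have h1 : (⌊α + (M - κ) * ℓ⌋ + 1 - ⌈α⌉ : ℤ) ≤ ((⌊α + (M - κ) * ℓ⌋ + 1 - ⌈α⌉).toNat : ℤ) :=
    Int.self_le_toNat _
  have h2 : ((⌊α + (M - κ) * ℓ⌋ + 1 - ⌈α⌉ : ℤ) : ℝ) ≤ (B.card : ℝ) := by
    have h3 : (⌊α + (M - κ) * ℓ⌋ + 1 - ⌈α⌉ : ℤ) ≤ (B.card : ℤ) := h1.trans (by exact_mod_cast hcard)
    exact_mod_cast h3
  push_cast at h2
  have h3 := Int.lt_floor_add_one (α + (M - κ) * ℓ)
  have h4 := Int.ceil_lt_add_one α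
  linarith

/-- few values on a large cube force two coordinates to be commensurable -/
lemma collision {C0 : Set (Fin n → ℝ)} {c0 : Fin n → ℝ} {ρ : ℝ}
    (hball : Metric.closedBall c0 ρ ⊆ C0) {M : ℝ} (hMpos : 0 < M) (hρ : 0 < ρ)
    (hM : 1 ≤ M * ρ) {β : ℕ} (hβ : (β : ℝ) ≤ M * ρ) {a : Fin n → ℝ} {B : Finset ℝ}
    (hB : ∀ x ∈ C0, IsInt (M • x) → ∑ i, a i * (M • x) i ∈ B)
    (hcard : (B.card : ℝ) ≤ β * (M * ρ)) {i j : Fin n} (hij : i ≠ j) (hai : a i ≠ 0) :
    ∃ q : ℕ, 1 ≤ q ∧ q ≤ β ∧ ∃ p : ℤ, (q : ℝ) * a j = p * a i := by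
  classical
  set s := ⌊M * ρ⌋₊ with hs
  have hs1 : 1 ≤ s := by rw [hs, Nat.one_le_floor_iff]; exact hM
  have hβs : β ≤ s := Nat.le_floor hβ
  have hsle : (s : ℝ) ≤ M * ρ := Nat.floor_le (by positivity)
  have hslt : M * ρ < s + 1 := Nat.lt_floor_add_one _
  let g : Fin n → ℤ := fun k => ⌊M * c0 k⌋
  let G : ℝ := ∑ k, a k * (g k : ℝ)
  let f : ℕ × ℕ → ℝ := fun q => G + (q.1 : ℝ) * a i + (q.2 : ℝ) * a j
  have hf : ∀ q ∈ (Finset.range (s + 1)) ×ˢ (Finset.range (β + 1)), f q ∈ B := by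
    rintro ⟨x, y⟩ hq
    rw [Finset.mem_product, Finset.mem_range, Finset.mem_range] at hq
    obtain ⟨hx, hy⟩ := hq
    simp only at hx hy
    let z : Fin n → ℤ := fun k => g k + (if k = i then (x : ℤ) else 0)
      + (if k = j then (y : ℤ) else 0)
    have hz0 : ∀ k, 0 ≤ (if k = i then (x : ℤ) else 0) + (if k = j then (y : ℤ) else 0) ∧
        (if k = i then (x : ℤ) else 0) + (if k = j then (y : ℤ) else 0) ≤ s := by
      intro k
      by_cases h1 : k = i
      · have h2 : k ≠ j := by rw [h1]; exact hij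
        rw [if_pos h1, if_neg h2]
        constructor <;> omega
      · rw [if_neg h1]
        by_cases h2 : k = j
        · rw [if_pos h2]; constructor <;> omega
        · rw [if_neg h2]; constructor <;> omega
    have hmem : (M⁻¹ • (fun k => (z k : ℝ)) : Fin n → ℝ) ∈ C0 := by
      apply hball
      rw [Metric.mem_closedBall, dist_pi_le_iff hρ.le]
      intro k
      rw [Real.dist_eq]
      simp only [Pi.smul_apply, smul_eq_mul]
      have h1 : M⁻¹ * (z k : ℝ) - c0 k = ((z k : ℝ) - M * c0 k) / M := by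
        field_simp
      rw [h1, abs_div, abs_of_pos hMpos, div_le_iff₀ hMpos]
      obtain ⟨h2, h3⟩ := hz0 k
      have h4 : (z k : ℝ) = (g k : ℝ) + (((if k = i then (x : ℤ) else 0)
          + (if k = j then (y : ℤ) else 0) : ℤ) : ℝ) := by
        simp only [z]
        push_cast
        ring
      have h5 : (0 : ℝ) ≤ (((if k = i then (x : ℤ) else 0)
          + (if k = j then (y : ℤ) else 0) : ℤ) : ℝ) := by exact_mod_cast h2
      have h6 : ((((if k = i then (x : ℤ) else 0)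
          + (if k = j then (y : ℤ) else 0) : ℤ)) : ℝ) ≤ (s : ℝ) := by exact_mod_cast h3
      have h7 : (g k : ℝ) ≤ M * c0 k := Int.floor_le _
      have h8 : M * c0 k < (g k : ℝ) + 1 := Int.lt_floor_add_one _
      have h9 : (1 : ℝ) ≤ s := by exact_mod_cast hs1
      rw [h4, abs_le]
      constructor <;> nlinarith
    have hMz : M • (M⁻¹ • (fun k => (z k : ℝ)) : Fin n → ℝ) = fun k => (z k : ℝ) := by
      rw [smul_smul, mul_inv_cancel₀ hMpos.ne', one_smul]
    have h1 := hB _ hmem (by rw [hMz]; exact fun k => ⟨z k, rfl⟩)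
    rw [hMz] at h1
    have h2 : ∑ k, a k * (z k : ℝ) = f (x, y) := by
      have h3 : ∀ k, a k * (z k : ℝ) = a k * (g k : ℝ) + (if k = i then a k * (x : ℝ) else 0)
          + (if k = j then a k * (y : ℝ) else 0) := by
        intro k
        simp only [z]
        push_cast
        by_cases h1 : k = i
        · by_cases h2 : k = j
          · rw [if_pos h1, if_pos h1, if_pos h2, if_pos h2]; ring
          · rw [if_pos h1, if_pos h1, if_neg h2, if_neg h2]; ring
        · by_cases h2 : k = j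
          · rw [if_neg h1, if_neg h1, if_pos h2, if_pos h2]; ring
          · rw [if_neg h1, if_neg h1, if_neg h2, if_neg h2]; ring
      rw [Finset.sum_congr rfl (fun k _ => h3 k), Finset.sum_add_distrib, Finset.sum_add_distrib,
        Finset.sum_ite_eq' Finset.univ i, Finset.sum_ite_eq' Finset.univ j]
      simp only [Finset.mem_univ, if_true, f, G]
      ring
    rw [← h2]
    exact h1
  have hlt : B.card < ((Finset.range (s + 1)) ×ˢ (Finset.range (β + 1))).card := by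
    rw [Finset.card_product, Finset.card_range, Finset.card_range]
    have h1 : (B.card : ℝ) < ((s : ℝ) + 1) * (β + 1) := by
      have : (β : ℝ) * (M * ρ) ≤ β * (s + 1) :=
        mul_le_mul_of_nonneg_left hslt.le (by positivity)
      nlinarith [show (0 : ℝ) ≤ (s : ℝ) by positivity]
    exact_mod_cast h1
  obtain ⟨⟨x, y⟩, hq, ⟨x', y'⟩, hq', hne, heq⟩ := Finset.exists_ne_map_eq_of_card_lt_of_maps_to hlt hf
  rw [Finset.mem_product, Finset.mem_range, Finset.mem_range] at hq hq'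
  obtain ⟨-, hy⟩ := hq
  obtain ⟨-, hy'⟩ := hq'
  simp only at hy hy'
  have heq' : ((x : ℝ) - x') * a i = ((y' : ℝ) - y) * a j := by
    simp only [f] at heq
    linarith
  rcases lt_trichotomy y y' with h | h | h
  · refine ⟨y' - y, by omega, by omega, (x : ℤ) - x', ?_⟩
    rw [Nat.cast_sub h.le]
    push_cast
    linarith
  · exfalso
    subst h
    rw [sub_self, zero_mul] at heq'
    rcases mul_eq_zero.mp heq' with h1 | h1
    · apply hne
      have : x = x' := by
        have : (x : ℝ) = x' := by linarith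
        exact_mod_cast this
      rw [this]
    · exact hai h1
  · refine ⟨y - y', by omega, by omega, (x' : ℤ) - x, ?_⟩
    rw [Nat.cast_sub h.le]
    push_cast
    linarith

/-- a vector with commensurable coordinates is proportional to a small primitive vector -/
lemma primitive_direction {a : Fin n → ℝ} (ha : a ≠ 0) {β : ℕ}
    (h : ∀ i j, a i ≠ 0 → ∃ q : ℕ, 1 ≤ q ∧ q ≤ β ∧ ∃ p : ℤ, (q : ℝ) * a j = p * a i) :
    ∃ b u : Fin n → ℤ, ∑ i, b i * u i = 1 ∧ (∀ k, |b k| ≤ (β.factorial : ℤ)) ∧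
      ∃ γ : ℝ, γ ≠ 0 ∧ ∀ k, a k = γ * b k := by
  classical
  obtain ⟨i1, hi1⟩ : ∃ i, a i ≠ 0 := by
    by_contra hcon
    push Not at hcon
    exact ha (funext hcon)
  have hne : Nonempty (Fin n) := ⟨i1⟩
  obtain ⟨i, hi⟩ := Finite.exists_max (fun k => |a k|)
  have hai : a i ≠ 0 := by
    intro h0
    have := hi i1
    rw [h0, abs_zero] at this
    exact hi1 (abs_nonpos_iff.mp this)
  choose q hq1 hqβ p hp using fun j => h i j hai
  have hqd : ∀ j, q j ∣ β.factorial := fun j => Nat.dvd_factorial (hq1 j) (hqβ j)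
  choose e he using hqd
  let b0 : Fin n → ℤ := fun j => (e j : ℤ) * p j
  have hfac : (0 : ℝ) < (β.factorial : ℝ) := by exact_mod_cast Nat.factorial_pos β
  have hb0 : ∀ j, (b0 j : ℝ) * a i = (β.factorial : ℝ) * a j := by
    intro j
    have h1 : (β.factorial : ℝ) = (q j : ℝ) * (e j : ℝ) := by exact_mod_cast he j
    rw [h1]
    simp only [b0]
    push_cast
    have h2 := hp j
    linear_combination (-(e j : ℝ)) * h2
  have hb0i : b0 i ≠ 0 := by
    intro h0
    have h1 := hb0 i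
    rw [h0] at h1
    push_cast at h1
    rw [zero_mul] at h1
    rcases mul_eq_zero.mp h1.symm with h2 | h2
    · exact hfac.ne' h2
    · exact hai h2
  let I : Ideal ℤ := Ideal.span (Set.range b0)
  let g : ℤ := Submodule.IsPrincipal.generator I
  have hgI : g ∈ I := Submodule.IsPrincipal.generator_mem I
  have hgd : ∀ j, g ∣ b0 j := by
    intro j
    have hmem : b0 j ∈ I := Ideal.subset_span ⟨j, rfl⟩
    exact (Submodule.IsPrincipal.mem_iff_generator_dvd I).mp hmem
  obtain ⟨u, hu⟩ := (Ideal.mem_span_range_iff_exists_fun (R := ℤ) (v := b0)).mp hgI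
  choose b hb using hgd
  have hg0 : g ≠ 0 := by
    intro h0
    apply hb0i
    rw [hb i, h0, zero_mul]
  refine ⟨b, u, ?_, ?_, a i * g / β.factorial, ?_, ?_⟩
  · have h1 : g * ∑ k, b k * u k = g * 1 := by
      rw [Finset.mul_sum, mul_one]
      refine Eq.trans (Finset.sum_congr rfl fun k _ => ?_) hu
      rw [hb k]; ring
    exact mul_left_cancel₀ hg0 h1
  · intro k
    have h1 : |b0 k| ≤ (β.factorial : ℤ) := by
      have h2 : |(b0 k : ℝ)| * |a i| ≤ (β.factorial : ℝ) * |a i| := by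
        rw [← abs_mul, hb0 k, abs_mul, abs_of_pos hfac]
        exact mul_le_mul_of_nonneg_left (hi k) hfac.le
      have h3 : |(b0 k : ℝ)| ≤ (β.factorial : ℝ) :=
        le_of_mul_le_mul_right h2 (abs_pos.mpr hai)
      exact_mod_cast h3
    have h4 : |b k| ≤ |b0 k| := by
      rw [hb k, abs_mul]
      have : 1 ≤ |g| := Int.one_le_abs hg0
      nlinarith [abs_nonneg (b k)]
    exact h4.trans h1
  · have : (g : ℝ) ≠ 0 := by exact_mod_cast hg0
    positivity
  · intro k
    have h1 := hb0 k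
    rw [hb k] at h1
    push_cast at h1
    field_simp
    linarith


/-- the counting contradiction -/
lemma count_contra {C0 : Set (Fin n → ℝ)} (hconv : Convex ℝ C0) (hint : (interior C0).Nonempty)
    {C1 : ℝ} (hC1 : 0 < C1)
    (hwide : ∀ b : Fin n → ℤ, b ≠ 0 → ∃ x ∈ C0, ∃ y ∈ C0,
      2 * C1 * n < (∑ i, (b i : ℝ) * x i) - (∑ i, (b i : ℝ) * y i))
    (hfew : ∀ᶠ m : ℕ in Filter.atTop, ∃ a : Fin n → ℝ, a ≠ 0 ∧ ∃ B : Finset ℝ,
      (B.card : ℝ) ≤ C1 * (((m + 1) * n + 1 : ℕ) : ℝ) * 2 ∧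
      ∀ x ∈ C0, IsInt (((m : ℝ) + 1) • x) → ∑ i, a i * (((m : ℝ) + 1) • x) i ∈ B) : False := by
  classical
  obtain ⟨c0, hc0⟩ := hint
  obtain ⟨ρ, hρ, hball⟩ := Metric.nhds_basis_closedBall.mem_iff.mp
    (mem_interior_iff_mem_nhds.mp hc0)
  have hint : (interior C0).Nonempty := ⟨c0, hc0⟩
  set β : ℕ := ⌈2 * C1 * (n + 1) / ρ⌉₊ with hβ
  have hβpos : 0 < β := Nat.ceil_pos.mpr (by positivity)
  have hβρ : 2 * C1 * (n + 1) ≤ β * ρ := by
    have := Nat.le_ceil (2 * C1 * (n + 1) / ρ)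
    rw [div_le_iff₀ hρ] at this
    exact this
  let S : Set (Fin n → ℤ) := {b | (∀ k, |b k| ≤ (β.factorial : ℤ)) ∧
    ∃ u : Fin n → ℤ, ∑ i, b i * u i = 1}
  have hS : S.Finite := by
    refine (Set.finite_Icc (fun _ : Fin n => -(β.factorial : ℤ))
      (fun _ => (β.factorial : ℤ))).subset ?_
    rintro b ⟨hb, -⟩
    exact ⟨fun k => (abs_le.mp (hb k)).1, fun k => (abs_le.mp (hb k)).2⟩
  -- every primitive direction has many values eventually
  have hmany : ∀ᶠ m : ℕ in Filter.atTop, ∀ b ∈ S, ∀ B : Finset ℝ,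
      (∀ x ∈ C0, IsInt (((m : ℝ) + 1) • x) → ∑ i, (b i : ℝ) * (((m : ℝ) + 1) • x) i ∈ B) →
      C1 * (((m + 1) * n + 1 : ℕ) : ℝ) * 2 < B.card := by
    rw [Filter.eventually_all_finite hS]
    rintro b ⟨-, u, hu⟩
    have hb0 : b ≠ 0 := by
      rintro rfl
      simp at hu
    obtain ⟨xp, hxp, xm, hxm, hw⟩ := hwide b hb0
    obtain ⟨κ, hκ, hval⟩ := many_values hconv hint hu hxp hxm
    set ℓ := (∑ i, (b i : ℝ) * xp i) - (∑ i, (b i : ℝ) * xm i) with hℓ
    obtain ⟨m0, hm0⟩ := exists_nat_gt (max κ ((κ * ℓ + 1 + 2 * C1) / (ℓ - 2 * C1 * n)))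
    filter_upwards [Filter.eventually_ge_atTop m0] with m hm B hB
    have hmR : (m0 : ℝ) ≤ m := by exact_mod_cast hm
    have h1 : κ ≤ (m : ℝ) + 1 := by
      have := le_max_left κ ((κ * ℓ + 1 + 2 * C1) / (ℓ - 2 * C1 * n))
      linarith
    have h2 : (κ * ℓ + 1 + 2 * C1) / (ℓ - 2 * C1 * n) < (m : ℝ) + 1 := by
      have := le_max_right κ ((κ * ℓ + 1 + 2 * C1) / (ℓ - 2 * C1 * n))
      linarith
    rw [div_lt_iff₀ (by linarith)] at h2
    have h3 := hval ((m : ℝ) + 1) h1 (by positivity) B hB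
    push_cast
    nlinarith
  have hev : ∀ᶠ m : ℕ in Filter.atTop, 1 ≤ ((m : ℝ) + 1) * ρ ∧ (β : ℝ) ≤ ((m : ℝ) + 1) * ρ := by
    obtain ⟨m0, hm0⟩ := exists_nat_gt (max (1 / ρ) (β / ρ))
    filter_upwards [Filter.eventually_ge_atTop m0] with m hm
    have hmR : (m0 : ℝ) ≤ m := by exact_mod_cast hm
    have h1 : 1 / ρ < (m : ℝ) + 1 := by
      have := le_max_left (1 / ρ) (β / ρ)
      linarith
    have h2 : β / ρ < (m : ℝ) + 1 := by
      have := le_max_right (1 / ρ) (β / ρ)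
      linarith
    rw [div_lt_iff₀ hρ] at h1 h2
    exact ⟨h1.le, h2.le⟩
  obtain ⟨m, ⟨a, ha, B, hcard, hB⟩, hm2, hm3, hm4⟩ := (hfew.and (hmany.and hev)).exists
  have hMpos : (0 : ℝ) < (m : ℝ) + 1 := by positivity
  have hcard' : (B.card : ℝ) ≤ β * (((m : ℝ) + 1) * ρ) := by
    refine hcard.trans ?_
    push_cast
    have h1 : (2 * C1 * (n + 1)) * ((m : ℝ) + 1) ≤ (β * ρ) * ((m : ℝ) + 1) :=
      mul_le_mul_of_nonneg_right hβρ hMpos.le
    have h2 : C1 * (((m : ℝ) + 1) * n + 1) * 2 ≤ (2 * C1 * (n + 1)) * ((m : ℝ) + 1) := by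
      have : 0 ≤ C1 * m := by positivity
      nlinarith
    linarith
  obtain ⟨b, u, hbu, hbβ, γ, hγ, hab⟩ := primitive_direction (a := a) ha (β := β) (by
    intro i j hai
    by_cases hij : i = j
    · subst hij
      exact ⟨1, le_refl _, hβpos, 1, by push_cast; ring⟩
    · exact collision hball hMpos hρ hm3 hm4 hB hcard' hij hai)
  have h1 := hm2 b ⟨hbβ, u, hbu⟩ (B.image (fun r => γ⁻¹ * r)) (by
    intro x hx hxi
    rw [Finset.mem_image]
    refine ⟨_, hB x hx hxi, ?_⟩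
    rw [Finset.mul_sum]
    refine Finset.sum_congr rfl fun i _ => ?_
    rw [hab i]
    field_simp)
  have h2 : ((B.image (fun r => γ⁻¹ * r)).card : ℝ) ≤ B.card := by
    exact_mod_cast Finset.card_image_le
  linarith

/-- If `c(d) ≤ C d` for all large `d`, then every convex body in `ℝ^n` without integer points has
lattice width at most `2 C n`. -/
theorem lower (C : ℝ) (hC : ∀ᶠ d : ℕ in Filter.atTop, Admissible d (C * d)) (n : ℕ) (hn : 1 ≤ n) :
    FlatnessBound n (2 * C * n) := by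
  classical
  intro K hconv hcomp hint he
  by_contra hcon
  push Not at hcon
  obtain ⟨D, y, hD⟩ := exists_data hconv hcomp hint he
  have hCpos : 0 < C := by
    obtain ⟨d, hd, hd1⟩ := (hC.and (Filter.eventually_ge_atTop 1)).exists
    have h1 := hd.1
    have h2 : (0 : ℝ) < d := by exact_mod_cast hd1
    by_contra h3
    push Not at h3
    nlinarith
  refine count_contra D.conv0 D.int0 hCpos ?_ ?_
  · intro b hb
    obtain ⟨x, hx, z, hz, hxz⟩ := hcon b hb
    refine ⟨x - y, hD x hx, z - y, hD z hz, ?_⟩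
    simp only [Pi.sub_apply, mul_sub, Finset.sum_sub_distrib]
    linarith
  · have htend : Filter.Tendsto (fun m : ℕ => (m + 1) * n + 1) Filter.atTop Filter.atTop := by
      apply Filter.tendsto_atTop_mono (f := fun m : ℕ => m)
      · intro m
        nlinarith
      · exact Filter.tendsto_id
    filter_upwards [htend.eventually hC] with m hm
    obtain ⟨a, ha, B, hB, hval⟩ := few_values D hn m _ hm
    exact ⟨a, ha, B, hB, hval⟩

end Pool.Agent.Work.MP_b10815_co_flat
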