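import Pool.Agent.Work.MP_b10815_co_flat.Vertex

set_option autoImplicit false

namespace Pool.Agent.Work.MP_b10815_co_flat

open Pool.Agent.Work.MP_b10815_co

variable {n : ℕ}

/-- The normalised pair of bodies used to build the blocks. -/
structure Data (n : ℕ) where
  C0 : Set (Fin n → ℝ)
  C : Set (Fin n → ℝ)
  zs : Fin n → ℝ
  conv0 : Convex ℝ C0
  comp0 : IsCompact C0
  int0 : (interior C0).Nonempty
  pts0 : integerPoints C0 = {0}
  conv : Convex ℝ C
  comp : IsCompact C
  sub : C0 ⊆ C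
  zs_int : IsInt zs
  zs_mem : zs ∈ C
  hollow : ∀ x ∈ interior C, ¬ IsInt x
  seg : ∀ σ : ℝ, 0 < σ → σ < 1 → σ • zs ∈ interior C

lemma exists_data {K : Set (Fin n → ℝ)} (hK : Convex ℝ K) (hc : IsCompact K)
    (hint : (interior K).Nonempty) (he : integerPoints K = ∅) :
    ∃ (D : Data n) (y : Fin n → ℝ), ∀ x ∈ K, x - y ∈ D.C0 := by
  have hne : K.Nonempty := hint.mono interior_subset
  obtain ⟨y, hy, hy1⟩ := exists_vertex hK hc hne he
  set K1 := join y K with hK1
  have hK1c : Convex ℝ K1 := join_convex hK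
  have hK1k : IsCompact K1 := join_compact hc
  have hK1i : (interior K1).Nonempty := hint.mono (interior_mono subset_join)
  have hyint : y ∉ interior K1 := by
    intro h
    have h1 : y ∈ integerPoints K := ⟨mem_of_mem_interior_join hK hne h, hy⟩
    rw [he] at h1
    exact h1
  obtain ⟨z, hz, ⟨θ, hθ0, hθ1, hq⟩, hhol⟩ := exists_second hK1c hK1k hK1i hy1 hyint
  set K2 := join z K1 with hK2
  have hK2c : Convex ℝ K2 := join_convex hK1c
  have hK2k : IsCompact K2 := join_compact hK1k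
  have h12 : K1 ⊆ K2 := subset_join
  have hyK1 : y ∈ K1 := self_mem_join hne
  let e := Homeomorph.addRight y
  have hpre : ∀ (S : Set (Fin n → ℝ)), e ⁻¹' (interior S) = interior (e ⁻¹' S) :=
    fun S => e.preimage_interior S
  have heapp : ∀ x, e x = x + y := fun x => rfl
  have hcompact : ∀ S : Set (Fin n → ℝ), IsCompact S → IsCompact (e ⁻¹' S) := by
    intro S hS
    rw [e.isCompact_preimage]
    exact hS
  have hconvex : ∀ S : Set (Fin n → ℝ), Convex ℝ S → Convex ℝ (e ⁻¹' S) := by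
    intro S hS u hu v hv a b ha hb hab
    show (a • u + b • v) + y ∈ S
    have : (a • u + b • v) + y = a • (u + y) + b • (v + y) := by
      rw [smul_add, smul_add]
      have : y = a • y + b • y := by rw [← add_smul, hab, one_smul]
      nth_rewrite 1 [this]
      abel
    rw [this]
    exact hS hu hv ha hb hab
  have hIntAdd : ∀ x : Fin n → ℝ, IsInt x → IsInt (x + y) := by
    intro x hx i
    obtain ⟨m, hm⟩ := hx i
    obtain ⟨k, hk⟩ := hy i
    exact ⟨m + k, by rw [Pi.add_apply, hm, hk]; push_cast; ring⟩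
  have hIntSub : ∀ x : Fin n → ℝ, IsInt x → IsInt (x - y) := by
    intro x hx i
    obtain ⟨m, hm⟩ := hx i
    obtain ⟨k, hk⟩ := hy i
    exact ⟨m - k, by rw [Pi.sub_apply, hm, hk]; push_cast; ring⟩
  refine ⟨⟨e ⁻¹' K1, e ⁻¹' K2, z - y, hconvex _ hK1c, hcompact _ hK1k, ?_, ?_, hconvex _ hK2c,
    hcompact _ hK2k, fun x hx => h12 hx, hIntSub z hz, ?_, ?_, ?_⟩, y, ?_⟩
  · rw [← hpre]
    obtain ⟨x, hx⟩ := hK1i
    exact ⟨x - y, by simpa [heapp] using hx⟩
  · ext x
    constructor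
    · rintro ⟨hx, hxi⟩
      have h1 : x + y ∈ integerPoints K1 := ⟨hx, hIntAdd x hxi⟩
      rw [hy1] at h1
      have h2 : x + y = y := h1
      show x = 0
      exact by simpa using h2
    · rintro rfl
      refine ⟨?_, fun i => ⟨0, by simp⟩⟩
      show (0 : Fin n → ℝ) + y ∈ K1
      rw [zero_add]; exact hyK1
  · show (z - y) + y ∈ K2
    rw [sub_add_cancel]
    exact self_mem_join (hK1i.mono interior_subset)
  · intro x hx hxi
    rw [← hpre] at hx
    exact hhol _ hx (hIntAdd x hxi)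
  · intro σ hσ0 hσ1
    rw [← hpre]
    show σ • (z - y) + y ∈ interior K2
    have hq2 : (1 - θ) • y + θ • z ∈ interior K2 := interior_mono h12 hq
    have hzK2 : z ∈ K2 := self_mem_join (hK1i.mono interior_subset)
    have hyK2 : y ∈ K2 := h12 hyK1
    rcases lt_trichotomy σ θ with h | h | h
    · -- between y and q
      have e1 : σ • (z - y) + y = (σ / θ) • ((1 - θ) • y + θ • z) + (1 - σ / θ) • y := by
        have : σ = σ / θ * θ := by field_simp
        rw [smul_add, smul_smul, smul_smul, ← this]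
        have h3 : σ / θ * (1 - θ) = σ / θ - σ := by field_simp
        rw [h3]
        module
      rw [e1]
      refine hK2c.combo_interior_self_mem_interior hq2 hyK2 (by positivity) ?_ (by ring)
      rw [sub_nonneg, div_le_one hθ0]; exact h.le
    · rw [h]
      have e1 : θ • (z - y) + y = (1 - θ) • y + θ • z := by module
      rw [e1]; exact hq2
    · have hθ' : 0 < 1 - θ := by linarith
      have e1 : σ • (z - y) + y = ((1 - σ) / (1 - θ)) • ((1 - θ) • y + θ • z)
          + (1 - (1 - σ) / (1 - θ)) • z := by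
        have h3 : (1 - σ) / (1 - θ) * (1 - θ) = 1 - σ := by field_simp
        have h4 : (1 - σ) / (1 - θ) * θ = (1 - σ) / (1 - θ) - (1 - σ) := by
          field_simp; ring
        rw [smul_add, smul_smul, smul_smul, h3, h4]
        module
      rw [e1]
      refine hK2c.combo_interior_self_mem_interior hq2 hzK2 ?_ ?_ (by ring)
      · exact div_pos (by linarith) hθ'
      · rw [sub_nonneg, div_le_one hθ']; linarith
  · intro x hx
    show (x - y) + y ∈ K1
    rw [sub_add_cancel]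
    exact subset_join hx


/-- convex combination of two scaled points -/
lemma cone_comb {S : Set (Fin n → ℝ)} (hS : Convex ℝ S) {x y : Fin n → ℝ} (hx : x ∈ S)
    (hy : y ∈ S) {a b : ℝ} (ha : 0 ≤ a) (hb : 0 ≤ b) :
    ∃ w ∈ S, (a + b) • w = a • x + b • y := by
  rcases (add_nonneg ha hb).eq_or_lt with h | h
  · have ha' : a = 0 := by linarith
    have hb' : b = 0 := by linarith
    exact ⟨x, hx, by rw [ha', hb']; simp⟩
  · refine ⟨(a / (a + b)) • x + (b / (a + b)) • y,
      hS hx hy (by positivity) (by positivity) (by rw [← add_div, div_self h.ne']), ?_⟩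
    rw [smul_add, smul_smul, smul_smul, mul_div_cancel₀ _ h.ne', mul_div_cancel₀ _ h.ne']

namespace Data

variable (D : Data n) (m : ℕ) (T : ℝ)

/-- block bodies -/
def blk (j : Fin (m + 1)) : Set (Fin n → ℝ) := if j = 0 then D.C0 else D.C

/-- the lattice point of the column -/
def col (j : Fin (m + 1)) : Fin n → ℝ := if j = 0 then 0 else D.zs

lemma zero_mem0 : (0 : Fin n → ℝ) ∈ D.C0 := by
  have : (0 : Fin n → ℝ) ∈ integerPoints D.C0 := by rw [D.pts0]; exact rfl
  exact this.1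

lemma zero_mem : (0 : Fin n → ℝ) ∈ D.C := D.sub D.zero_mem0

lemma blk_conv (j : Fin (m + 1)) : Convex ℝ (D.blk m j) := by
  unfold blk; split_ifs
  · exact D.conv0
  · exact D.conv

lemma blk_comp (j : Fin (m + 1)) : IsCompact (D.blk m j) := by
  unfold blk; split_ifs
  · exact D.comp0
  · exact D.comp

lemma C0_sub_blk (j : Fin (m + 1)) : D.C0 ⊆ D.blk m j := by
  unfold blk; split_ifs
  · exact subset_rfl
  · exact D.sub

lemma col_mem_blk (j : Fin (m + 1)) : D.col m j ∈ D.blk m j := by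
  unfold blk col; split_ifs
  · exact D.zero_mem0
  · exact D.zs_mem

lemma col_int (j : Fin (m + 1)) : IsInt (D.col m j) := by
  unfold col; split_ifs
  · exact fun i => ⟨0, by simp⟩
  · exact D.zs_int

/-- The body in `(ℝ^n)^(m+1) × ℝ`. -/
def body : Set ((Fin (m + 1) → Fin n → ℝ) × ℝ) :=
  {w | ∃ s : ℝ, 0 ≤ s ∧ s ≤ 1 ∧ ∃ μ : Fin (m + 1) → ℝ, (∀ j, 0 ≤ μ j) ∧
    ∑ j, μ j = (1 - s) * (m + 1) ∧ w.2 = s * T ∧
    ∀ j, ∃ x ∈ D.blk m j, w.1 j = s • D.col m j + μ j • x}

lemma body_convex : Convex ℝ (D.body m T) := by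
  rintro w ⟨s, s0, s1, μ, hμ, hsum, ht, hx⟩ w' ⟨s', s0', s1', μ', hμ', hsum', ht', hx'⟩ a b ha hb hab
  refine ⟨a * s + b * s', by positivity, by nlinarith, fun j => a * μ j + b * μ' j,
    fun j => add_nonneg (mul_nonneg ha (hμ j)) (mul_nonneg hb (hμ' j)), ?_, ?_, ?_⟩
  · rw [Finset.sum_add_distrib, ← Finset.mul_sum, ← Finset.mul_sum, hsum, hsum']
    have : b = 1 - a := by linarith
    rw [this]; ring
  · simp only [Prod.snd_add, Prod.smul_snd, smul_eq_mul, ht, ht']
    ring
  · intro j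
    obtain ⟨x, hxm, hxe⟩ := hx j
    obtain ⟨x', hxm', hxe'⟩ := hx' j
    obtain ⟨y, hy, hye⟩ := cone_comb (D.blk_conv m j) hxm hxm' (mul_nonneg ha (hμ j))
      (mul_nonneg hb (hμ' j))
    refine ⟨y, hy, ?_⟩
    simp only [Prod.fst_add, Prod.smul_fst, Pi.add_apply, Pi.smul_apply]
    rw [hye, hxe, hxe']
    module

lemma body_compact : IsCompact (D.body m T) := by
  let S : Set (ℝ × (Fin (m + 1) → ℝ) × (Fin (m + 1) → Fin n → ℝ)) :=
    (Set.Icc (0 : ℝ) 1 ×ˢ (Set.Icc (fun _ => (0 : ℝ)) (fun _ => (m : ℝ) + 1) ×ˢ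
      Set.pi Set.univ (D.blk m))) ∩ {q | ∑ j, q.2.1 j = (1 - q.1) * (m + 1)}
  have hS : IsCompact S := by
    apply IsCompact.inter_right
    · exact isCompact_Icc.prod (isCompact_Icc.prod (isCompact_univ_pi (D.blk_comp m)))
    · exact isClosed_eq (by fun_prop) (by fun_prop)
  let F : ℝ × (Fin (m + 1) → ℝ) × (Fin (m + 1) → Fin n → ℝ) → (Fin (m + 1) → Fin n → ℝ) × ℝ :=
    fun q => (fun j => q.1 • D.col m j + q.2.1 j • q.2.2 j, q.1 * T)
  have hF : Continuous F := by fun_prop
  have heq : D.body m T = F '' S := by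
    ext w
    constructor
    · rintro ⟨s, s0, s1, μ, hμ, hsum, ht, hx⟩
      choose x hxm hxe using hx
      refine ⟨(s, μ, x), ⟨⟨⟨s0, s1⟩, ⟨⟨hμ, ?_⟩, fun j _ => hxm j⟩⟩, hsum⟩, ?_⟩
      · intro j
        have h1 : μ j ≤ ∑ j, μ j := Finset.single_le_sum (fun i _ => hμ i) (Finset.mem_univ j)
        rw [hsum] at h1
        have h2 : (0 : ℝ) ≤ (m : ℝ) + 1 := by positivity
        show μ j ≤ (m : ℝ) + 1
        nlinarith
      · simp only [F]
        refine Prod.ext ?_ ht.symm
        funext j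
        exact (hxe j).symm
    · rintro ⟨⟨s, μ, x⟩, ⟨⟨⟨s0, s1⟩, ⟨⟨hμ, -⟩, hx⟩⟩, hsum⟩, rfl⟩
      exact ⟨s, s0, s1, μ, hμ, hsum, rfl, fun j => ⟨x j, hx j trivial, rfl⟩⟩
  rw [heq]
  exact hS.image hF

lemma body_interior (hT : 0 < T) : (interior (D.body m T)).Nonempty := by
  classical
  obtain ⟨c, hc⟩ := D.int0
  -- centre
  let w0 : (Fin (m + 1) → Fin n → ℝ) × ℝ :=
    (fun j => (1 / 2 : ℝ) • D.col m j + (1 / 2 : ℝ) • c, T / 2)
  refine ⟨w0, ?_⟩
  rw [mem_interior_iff_mem_nhds]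
  have h1 : ∀ᶠ w in nhds w0, 0 < w.2 / T ∧ w.2 / T < 1 := by
    have hcont : ContinuousAt (fun w : (Fin (m + 1) → Fin n → ℝ) × ℝ => w.2 / T) w0 := by
      fun_prop
    have h2 : w0.2 / T = 1 / 2 := by simp only [w0]; field_simp
    have h3 : Set.Ioo (0 : ℝ) 1 ∈ nhds (w0.2 / T) := by
      rw [h2]; exact Ioo_mem_nhds (by norm_num) (by norm_num)
    exact hcont h3
  have h2 : ∀ j, ∀ᶠ w in nhds w0,
      (1 - w.2 / T)⁻¹ • (w.1 j - (w.2 / T) • D.col m j) ∈ interior D.C0 := by
    intro j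
    have hne : (1 - w0.2 / T) ≠ 0 := by
      have : w0.2 / T = 1 / 2 := by simp only [w0]; field_simp
      rw [this]; norm_num
    have hcont : ContinuousAt (fun w : (Fin (m + 1) → Fin n → ℝ) × ℝ =>
        (1 - w.2 / T)⁻¹ • (w.1 j - (w.2 / T) • D.col m j)) w0 := by
      fun_prop (disch := exact hne)
    have hval : (1 - w0.2 / T)⁻¹ • (w0.1 j - (w0.2 / T) • D.col m j) = c := by
      have h3 : w0.2 / T = 1 / 2 := by simp only [w0]; field_simp
      rw [h3]
      simp only [w0]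
      rw [add_sub_cancel_left, smul_smul]
      norm_num
    have h3 : interior D.C0 ∈
        nhds ((1 - w0.2 / T)⁻¹ • (w0.1 j - (w0.2 / T) • D.col m j)) := by
      rw [hval]; exact isOpen_interior.mem_nhds hc
    exact hcont h3
  have h3 : ∀ᶠ w in nhds w0, ∀ j,
      (1 - w.2 / T)⁻¹ • (w.1 j - (w.2 / T) • D.col m j) ∈ interior D.C0 :=
    Filter.eventually_all.mpr h2
  filter_upwards [h1, h3] with w hw1 hw2
  obtain ⟨ha, hb⟩ := hw1
  have hpos : 0 < 1 - w.2 / T := by linarith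
  refine ⟨w.2 / T, ha.le, hb.le, fun _ => 1 - w.2 / T, fun _ => hpos.le, ?_, ?_, ?_⟩
  · rw [Finset.sum_const, Finset.card_univ, Fintype.card_fin, nsmul_eq_mul]
    push_cast
    ring
  · field_simp
  · intro j
    refine ⟨_, D.C0_sub_blk m j (interior_subset (hw2 j)), ?_⟩
    rw [smul_smul, mul_inv_cancel₀ hpos.ne', one_smul]
    abel

/-- integer points of the body off the bottom have vanishing `0`-th block -/
lemma body_lattice {w : (Fin (m + 1) → Fin n → ℝ) × ℝ} (hw : w ∈ D.body m T)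
    (hi : ∀ j, IsInt (w.1 j)) (ht : w.2 ≠ 0) : w.1 0 = 0 := by
  classical
  obtain ⟨s, s0, s1, μ, hμ, hsum, htt, hx⟩ := hw
  have hs : 0 < s := by
    rcases s0.eq_or_lt with h | h
    · exfalso; apply ht; rw [htt, ← h, zero_mul]
    · exact h
  -- some weight is small
  let ν : Fin (m + 1) → ℝ := fun j => μ j + (if j = 0 then 0 else s)
  have hν : ∑ j, ν j < ∑ _j : Fin (m + 1), (1 : ℝ) := by
    simp only [ν]
    rw [Finset.sum_add_distrib, hsum, Fin.sum_univ_succ (f := fun j => if j = 0 then (0 : ℝ) else s)]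
    simp only [if_true, Fin.succ_ne_zero, if_false, Finset.sum_const, Finset.card_univ,
      Fintype.card_fin, nsmul_eq_mul]
    push_cast
    nlinarith
  obtain ⟨j, -, hj⟩ := Finset.exists_lt_of_sum_lt hν
  obtain ⟨x, hxm, hxe⟩ := hx j
  by_cases hj0 : j = 0
  · subst hj0
    simp only [ν, if_true, add_zero] at hj
    have hxm' : x ∈ D.C0 := by simpa [blk] using hxm
    have hxe' : w.1 0 = μ 0 • x := by simpa [col] using hxe
    have hmem : w.1 0 ∈ D.C0 := by
      rw [hxe']
      have := D.conv0 hxm' D.zero_mem0 (hμ 0) (show 0 ≤ 1 - μ 0 by linarith) (by ring)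
      simpa using this
    have h1 : w.1 0 ∈ integerPoints D.C0 := ⟨hmem, hi 0⟩
    rw [D.pts0] at h1
    exact h1
  · exfalso
    simp only [ν, if_neg hj0] at hj
    have hxm' : x ∈ D.C := by simpa [blk, hj0] using hxm
    have hxe' : w.1 j = s • D.zs + μ j • x := by simpa [col, hj0] using hxe
    have hμ1 : μ j < 1 := by linarith
    have hpos : 0 < 1 - μ j := by linarith
    apply D.hollow (w.1 j) ?_ (hi j)
    have e1 : w.1 j = (1 - μ j) • ((s / (1 - μ j)) • D.zs) + μ j • x := by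
      rw [hxe', smul_smul, mul_div_cancel₀ _ hpos.ne']
    rw [e1]
    exact D.conv.combo_interior_self_mem_interior
      (D.seg _ (by positivity) (by rw [div_lt_one hpos]; linarith)) hxm' hpos (hμ j) (by ring)

/-- the column points -/
lemma col_mem_body (hT : 0 < T) {t : ℝ} (h0 : 0 ≤ t) (h1 : t ≤ T) :
    ((D.col m, t) : (Fin (m + 1) → Fin n → ℝ) × ℝ) ∈ D.body m T := by
  have hs1 : t / T ≤ 1 := by rw [div_le_one hT]; exact h1
  refine ⟨t / T, by positivity, hs1, fun _ => 1 - t / T, fun _ => by linarith, ?_, ?_, ?_⟩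
  · rw [Finset.sum_const, Finset.card_univ, Fintype.card_fin, nsmul_eq_mul]
    push_cast
    ring
  · show t = t / T * T
    field_simp
  · intro j
    refine ⟨D.col m j, D.col_mem_blk m j, ?_⟩
    show D.col m j = _
    module

/-- points supported on one block -/
lemma single_mem_body (j : Fin (m + 1)) {c : Fin n → ℝ} (hc : c ∈ D.C0) :
    ((Pi.single j (((m : ℝ) + 1) • c), 0) : (Fin (m + 1) → Fin n → ℝ) × ℝ) ∈ D.body m T := by
  classical
  refine ⟨0, le_refl _, zero_le_one, Pi.single j ((m : ℝ) + 1), ?_, ?_, ?_, ?_⟩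
  · intro k
    by_cases h : k = j
    · subst h; simp only [Pi.single_eq_same]; positivity
    · simp [Pi.single_eq_of_ne h]
  · rw [Finset.sum_pi_single']
    simp
  · show (0 : ℝ) = 0 * T
    ring
  · intro k
    by_cases h : k = j
    · subst h
      exact ⟨c, D.C0_sub_blk m k hc, by simp⟩
    · exact ⟨0, D.C0_sub_blk m k D.zero_mem0, by simp [Pi.single_eq_of_ne h]⟩

end Data

end Pool.Agent.Work.MP_b10815_co_flat
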