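import Pool.Agent.Work.MP_b10815_co_flat.Body

set_option autoImplicit false

namespace Pool.Agent.Work.MP_b10815_co_flat

open Pool.Agent.Work.MP_b10815_co

variable {n : ℕ}

/-- index equivalence -/
def idx (n m : ℕ) : Fin ((m + 1) * n + 1) ≃ Option (Fin (m + 1) × Fin n) :=
  (finSuccEquiv ((m + 1) * n)).trans (Equiv.optionCongr finProdFinEquiv.symm)

/-- split a vector into blocks and a last coordinate -/
def toZ (n m : ℕ) (x : Fin ((m + 1) * n + 1) → ℝ) : (Fin (m + 1) → Fin n → ℝ) × ℝ :=
  (fun j i => x ((idx n m).symm (some (j, i))), x ((idx n m).symm none))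

/-- glue blocks -/
def ofZ (n m : ℕ) (w : (Fin (m + 1) → Fin n → ℝ) × ℝ) : Fin ((m + 1) * n + 1) → ℝ :=
  fun a => ((idx n m) a).elim w.2 (fun q => w.1 q.1 q.2)

lemma toZ_ofZ (m : ℕ) (w : (Fin (m + 1) → Fin n → ℝ) × ℝ) : toZ n m (ofZ n m w) = w := by
  refine Prod.ext ?_ ?_
  · funext j i
    simp [toZ, ofZ]
  · simp [toZ, ofZ]

lemma ofZ_toZ (m : ℕ) (x : Fin ((m + 1) * n + 1) → ℝ) : ofZ n m (toZ n m x) = x := by
  funext a
  simp only [ofZ, toZ]
  have : a = (idx n m).symm (idx n m a) := by simp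
  rcases h : idx n m a with _ | q
  · simp only [Option.elim_none]
    rw [h] at this
    rw [← this]
  · simp only [Option.elim_some]
    rw [h] at this
    rw [← this]

lemma toZ_cont (m : ℕ) : Continuous (toZ n m) := by
  unfold toZ
  fun_prop

lemma ofZ_cont (m : ℕ) : Continuous (ofZ n m) := by
  unfold ofZ
  refine continuous_pi fun a => ?_
  rcases idx n m a with _ | q
  · simp only [Option.elim_none]; fun_prop
  · simp only [Option.elim_some]; fun_prop

lemma sum_toZ (m : ℕ) (v x : Fin ((m + 1) * n + 1) → ℝ) :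
    ∑ a, v a * x a = (toZ n m v).2 * (toZ n m x).2 +
      ∑ j, ∑ i, (toZ n m v).1 j i * (toZ n m x).1 j i := by
  rw [← Equiv.sum_comp (idx n m).symm (fun a => v a * x a), Fintype.sum_option,
    Fintype.sum_prod_type]
  rfl

lemma ofZ_isInt (m : ℕ) {w : (Fin (m + 1) → Fin n → ℝ) × ℝ} (h1 : ∀ j, IsInt (w.1 j))
    (h2 : ∃ k : ℤ, w.2 = (k : ℝ)) : IsInt (ofZ n m w) := by
  intro a
  simp only [ofZ]
  rcases idx n m a with _ | q
  · exact h2
  · exact h1 q.1 q.2

theorem few_values (D : Data n) (hn : 1 ≤ n) (m : ℕ) (c : ℝ)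
    (hadm : Admissible ((m + 1) * n + 1) c) :
    ∃ a : Fin n → ℝ, a ≠ 0 ∧ ∃ B : Finset ℝ, (B.card : ℝ) ≤ c * 2 ∧
      ∀ x ∈ D.C0, IsInt (((m : ℝ) + 1) • x) → ∑ i, a i * (((m : ℝ) + 1) • x) i ∈ B := by
  classical
  obtain ⟨hc, hadm⟩ := hadm
  set T : ℕ := ⌈c * 2⌉₊ + 1 with hT
  have hTpos : (0 : ℝ) < (T : ℝ) := by rw [hT]; positivity
  have hTc : c * 2 < (T : ℝ) := by
    rw [hT]; push_cast
    have := Nat.le_ceil (c * 2)
    linarith
  set K : Set (Fin ((m + 1) * n + 1) → ℝ) := toZ n m ⁻¹' (D.body m (T : ℝ)) with hK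
  have hKconv : Convex ℝ K := by
    intro x hx y hy a b ha hb hab
    have : toZ n m (a • x + b • y) = a • toZ n m x + b • toZ n m y := rfl
    show toZ n m (a • x + b • y) ∈ D.body m (T : ℝ)
    rw [this]
    exact D.body_convex m T hx hy ha hb hab
  have hKcomp : IsCompact K := by
    have : K = ofZ n m '' (D.body m (T : ℝ)) := by
      ext x
      constructor
      · intro hx; exact ⟨toZ n m x, hx, ofZ_toZ m x⟩
      · rintro ⟨w, hw, rfl⟩
        show toZ n m (ofZ n m w) ∈ D.body m (T : ℝ)
        rw [toZ_ofZ]; exact hw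
    rw [this]
    exact (D.body_compact m T).image (ofZ_cont m)
  have hKint : (interior K).Nonempty := by
    obtain ⟨w, hw⟩ := D.body_interior m T hTpos
    refine ⟨ofZ n m w, ?_⟩
    apply preimage_interior_subset_interior_preimage (toZ_cont m)
    show toZ n m (ofZ n m w) ∈ interior (D.body m (T : ℝ))
    rw [toZ_ofZ]; exact hw
  have hcov : CoveredBy (integerPoints K) 2 := by
    refine ⟨![Pi.single ((idx n m).symm none) 1,
      Pi.single ((idx n m).symm (some (0, ⟨0, hn⟩))) 1], fun _ => 0, ?_, ?_⟩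
    · intro j
      fin_cases j
      · intro h
        have := congrFun h ((idx n m).symm none)
        simp at this
      · intro h
        have := congrFun h ((idx n m).symm (some (0, ⟨0, hn⟩)))
        simp at this
    · rintro x ⟨hx, hxi⟩
      simp only [Set.mem_iUnion]
      by_cases ht : (toZ n m x).2 = 0
      · refine ⟨0, ?_⟩
        show ∑ i, (Pi.single ((idx n m).symm none) (1 : ℝ) : Fin _ → ℝ) i * x i = 0
        rw [Finset.sum_eq_single ((idx n m).symm none)]
        · rw [Pi.single_eq_same, one_mul]; exact ht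
        · intro b _ hb
          rw [Pi.single_eq_of_ne hb, zero_mul]
        · intro h; exact absurd (Finset.mem_univ _) h
      · have h0 := D.body_lattice m T hx (fun j i => hxi _) ht
        refine ⟨1, ?_⟩
        show ∑ i, (Pi.single ((idx n m).symm (some (0, ⟨0, hn⟩))) (1 : ℝ) : Fin _ → ℝ) i * x i = 0
        rw [Finset.sum_eq_single ((idx n m).symm (some (0, ⟨0, hn⟩)))]
        · rw [Pi.single_eq_same, one_mul]
          exact congrFun h0 ⟨0, hn⟩
        · intro b _ hb
          rw [Pi.single_eq_of_ne hb, zero_mul]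
        · intro h; exact absurd (Finset.mem_univ _) h
  obtain ⟨M, hM, v, b, hv, hsub⟩ := hadm K hKconv hKcomp hKint 2 (by norm_num) hcov
  have hM' : (M : ℝ) ≤ c * 2 := by simpa using hM
  have hval : ∀ w ∈ D.body m (T : ℝ), (∀ j, IsInt (w.1 j)) → (∃ k : ℤ, w.2 = (k : ℝ)) →
      (toZ n m v).2 * w.2 + ∑ j, ∑ i, (toZ n m v).1 j i * w.1 j i ∈ Finset.univ.image b := by
    intro w hw h1 h2
    have h3 : ofZ n m w ∈ integerPoints K := by
      refine ⟨?_, ofZ_isInt m h1 h2⟩
      show toZ n m (ofZ n m w) ∈ D.body m (T : ℝ)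
      rw [toZ_ofZ]; exact hw
    have h4 := hsub h3
    simp only [Set.mem_iUnion] at h4
    obtain ⟨j, hj⟩ := h4
    rw [Finset.mem_image]
    refine ⟨j, Finset.mem_univ _, ?_⟩
    have h5 : ∑ a, v a * ofZ n m w a = b j := hj
    rw [sum_toZ, toZ_ofZ] at h5
    exact h5.symm
  have hcard : ((Finset.univ.image b).card : ℝ) ≤ c * 2 := by
    refine le_trans ?_ hM'
    exact_mod_cast (Finset.card_image_le.trans (by simp))
  by_cases hall : ∀ j, (toZ n m v).1 j = 0
  · exfalso
    have hv2 : (toZ n m v).2 ≠ 0 := by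
      intro h
      apply hv
      rw [← ofZ_toZ m v]
      have : toZ n m v = 0 := Prod.ext (funext hall) h
      rw [this]
      funext a
      simp only [ofZ]
      rcases idx n m a with _ | q <;> rfl
    have hsubset : (Finset.range (T + 1)).image (fun t : ℕ => (toZ n m v).2 * (t : ℝ))
        ⊆ Finset.univ.image b := by
      intro r hr
      rw [Finset.mem_image] at hr
      obtain ⟨t, ht, rfl⟩ := hr
      have ht' : t ≤ T := by rw [Finset.mem_range] at ht; omega
      have h1 := hval (D.col m, (t : ℝ)) (D.col_mem_body m T hTpos (by positivity)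
        (by exact_mod_cast ht')) (fun j => D.col_int m j) ⟨t, by push_cast; rfl⟩
      simpa [hall] using h1
    have h2 := Finset.card_le_card hsubset
    rw [Finset.card_image_of_injective, Finset.card_range] at h2
    · have h3 : ((T + 1 : ℕ) : ℝ) ≤ ((Finset.univ.image b).card : ℝ) := by exact_mod_cast h2
      push_cast at h3
      linarith
    · intro s t hst
      have := mul_left_cancel₀ hv2 hst
      exact_mod_cast this
  · push Not at hall
    obtain ⟨j, hj⟩ := hall
    refine ⟨(toZ n m v).1 j, hj, Finset.univ.image b, hcard, ?_⟩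
    intro x hx hxi
    have h1 := hval _ (D.single_mem_body m T j hx) ?_ ⟨0, by simp⟩
    · have h2 : (toZ n m v).2 * (0 : ℝ) + ∑ k, ∑ i, (toZ n m v).1 k i *
          (Pi.single j (((m : ℝ) + 1) • x) : Fin (m + 1) → Fin n → ℝ) k i
          = ∑ i, (toZ n m v).1 j i * (((m : ℝ) + 1) • x) i := by
        rw [mul_zero, zero_add, Finset.sum_eq_single j]
        · simp
        · intro k _ hk
          simp [Pi.single_eq_of_ne hk]
        · intro h; exact absurd (Finset.mem_univ _) h
      rw [← h2]
      exact h1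
    · intro k
      by_cases hk : k = j
      · subst hk
        simpa using hxi
      · intro i
        refine ⟨0, ?_⟩
        simp [Pi.single_eq_of_ne hk]

end Pool.Agent.Work.MP_b10815_co_flat
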