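import Pool.Agent.Work.MP_b10815_co.Defs

set_option autoImplicit false

namespace Pool.Agent.Work.MP_b10815_co_flat

open Pool.Agent.Work.MP_b10815_co Module

/-- `F` bounds the flatness constant in dimension `d`: every convex body in `ℝ^d` without integer
points has lattice width at most `F`. -/
def FlatnessBound (d : ℕ) (F : ℝ) : Prop :=
  ∀ K : Set (Fin d → ℝ), Convex ℝ K → IsCompact K → (interior K).Nonempty →
    integerPoints K = ∅ →
    ∃ a : Fin d → ℤ, a ≠ 0 ∧ ∀ x ∈ K, ∀ y ∈ K,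
      (∑ i, (a i : ℝ) * x i) - (∑ i, (a i : ℝ) * y i) ≤ F

/-- the functional `z ↦ u · z` on `ℤ^d` -/
noncomputable def phi {d : ℕ} (u : Fin d → ℝ) : (Fin d → ℤ) →ₗ[ℤ] ℝ where
  toFun z := ∑ i, u i * (z i : ℝ)
  map_add' x y := by
    simp only [Pi.add_apply, Int.cast_add, mul_add, Finset.sum_add_distrib]
  map_smul' c x := by
    simp only [Pi.smul_apply, smul_eq_mul, Int.cast_mul, zsmul_eq_mul, Finset.mul_sum,
      eq_intCast, Int.cast_id]
    refine Finset.sum_congr rfl fun i _ => ?_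
    ring

lemma phi_apply {d : ℕ} (u : Fin d → ℝ) (z : Fin d → ℤ) : phi u z = ∑ i, u i * (z i : ℝ) := rfl

lemma finrank_ker_lt {d : ℕ} (u : Fin d → ℝ) (hu : u ≠ 0) :
    finrank ℤ (LinearMap.ker (phi u)) < d := by
  have h := Submodule.finrank_quotient_add_finrank (LinearMap.ker (phi u))
  have h2 : 0 < finrank ℤ ((Fin d → ℤ) ⧸ LinearMap.ker (phi u)) := by
    rw [LinearEquiv.finrank_eq (LinearMap.quotKerEquivRange (phi u))]
    obtain ⟨i, hi⟩ : ∃ i, u i ≠ 0 := by
      by_contra hcon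
      push Not at hcon
      exact hu (funext hcon)
    have : Nontrivial (LinearMap.range (phi u)) := by
      refine ⟨⟨⟨phi u (Pi.single i 1), LinearMap.mem_range_self _ _⟩, 0, ?_⟩⟩
      intro hcon
      apply hi
      have := congrArg Subtype.val hcon
      simpa [phi_apply, Pi.single_apply] using this
    exact finrank_pos
  have h3 : finrank ℤ (Fin d → ℤ) = d := by simp
  omega

/-- reduction modulo `k` -/
def red {d : ℕ} (k : ℕ) (z : Fin d → ℤ) : Fin d → ZMod k := fun i => (z i : ZMod k)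

lemma class_count {d k : ℕ} [NeZero k] (u : Fin d → ℝ) (hu : u ≠ 0) (b : ℝ) :
    (red k '' {z : Fin d → ℤ | ∑ i, u i * (z i : ℝ) = b}).ncard ≤ k ^ (d - 1) := by
  classical
  rcases Set.eq_empty_or_nonempty {z : Fin d → ℤ | ∑ i, u i * (z i : ℝ) = b} with he | ⟨z0, hz0⟩
  · rw [he]; simp
  · set r := finrank ℤ (LinearMap.ker (phi u)) with hr
    have hrd : r < d := finrank_ker_lt u hu
    let B := Module.finBasis ℤ (LinearMap.ker (phi u))
    let g : (Fin r → ZMod k) → (Fin d → ZMod k) := fun c i =>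
      red k z0 i + ∑ j, c j * red k (B j : Fin d → ℤ) i
    have hsub : red k '' {z : Fin d → ℤ | ∑ i, u i * (z i : ℝ) = b} ⊆ Set.range g := by
      rintro _ ⟨z, hz, rfl⟩
      have hmem : z - z0 ∈ LinearMap.ker (phi u) := by
        rw [LinearMap.mem_ker, map_sub, phi_apply, phi_apply]
        have h1 : ∑ i, u i * (z i : ℝ) = b := hz
        have h2 : ∑ i, u i * (z0 i : ℝ) = b := hz0
        rw [h1, h2, sub_self]
      let w : LinearMap.ker (phi u) := ⟨z - z0, hmem⟩
      refine ⟨fun j => ((B.repr w j : ℤ) : ZMod k), ?_⟩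
      have hsum := B.sum_repr w
      funext i
      have hi : (∑ j, B.repr w j * (B j : Fin d → ℤ) i) = z i - z0 i := by
        have h3 := congrArg (fun v : LinearMap.ker (phi u) => (v : Fin d → ℤ) i) hsum
        simp only [Submodule.coe_sum, Submodule.coe_smul, Finset.sum_apply, Pi.smul_apply,
          smul_eq_mul] at h3
        rw [h3]
        rfl
      have h4 : (((∑ j, B.repr w j * (B j : Fin d → ℤ) i : ℤ)) : ZMod k)
          = ((z i - z0 i : ℤ) : ZMod k) := by rw [hi]
      simp only [g, red]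
      push_cast at h4
      rw [h4]
      ring
    calc (red k '' {z : Fin d → ℤ | ∑ i, u i * (z i : ℝ) = b}).ncard
        ≤ (Set.range g).ncard := Set.ncard_le_ncard hsub (Set.toFinite _)
      _ ≤ Nat.card (Fin r → ZMod k) := by
          rw [← Set.image_univ, ← Set.ncard_univ]
          exact Set.ncard_image_le (Set.toFinite _)
      _ = k ^ r := by simp
      _ ≤ k ^ (d - 1) := Nat.pow_le_pow_right (Nat.pos_of_ne_zero (NeZero.ne k)) (by omega)

lemma covered_classes {d N k : ℕ} [NeZero k] (hd : 1 ≤ d) (X : Set (Fin d → ℤ))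
    (u : Fin N → Fin d → ℝ) (b : Fin N → ℝ) (hu : ∀ j, u j ≠ 0)
    (hX : ∀ z ∈ X, ∃ j, ∑ i, u j i * (z i : ℝ) = b j)
    (hall : ∀ c : Fin d → ZMod k, ∃ z ∈ X, red k z = c) : k ≤ N := by
  classical
  have hk : 0 < k := Nat.pos_of_ne_zero (NeZero.ne k)
  let S : Fin N → Finset (Fin d → ZMod k) := fun j =>
    (red k '' {z : Fin d → ℤ | ∑ i, u j i * (z i : ℝ) = b j}).toFinite.toFinset
  have hS : ∀ j, (S j).card ≤ k ^ (d - 1) := by
    intro j
    have := class_count (k := k) (u j) (hu j) (b j)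
    rwa [Set.ncard_eq_toFinset_card _ (Set.toFinite _)] at this
  have huniv : (Finset.univ : Finset (Fin d → ZMod k)) ⊆ Finset.univ.biUnion S := by
    intro c _
    obtain ⟨z, hz, rfl⟩ := hall c
    obtain ⟨j, hj⟩ := hX z hz
    simp only [Finset.mem_biUnion, Finset.mem_univ, true_and]
    refine ⟨j, ?_⟩
    simp only [S, Set.Finite.mem_toFinset]
    exact ⟨z, hj, rfl⟩
  have h1 : k ^ d ≤ N * k ^ (d - 1) := by
    calc k ^ d = (Finset.univ : Finset (Fin d → ZMod k)).card := by
          simp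
      _ ≤ (Finset.univ.biUnion S).card := Finset.card_le_card huniv
      _ ≤ ∑ j, (S j).card := Finset.card_biUnion_le
      _ ≤ ∑ _j : Fin N, k ^ (d - 1) := Finset.sum_le_sum fun j _ => hS j
      _ = N * k ^ (d - 1) := by simp
  obtain ⟨e, rfl⟩ : ∃ e, d = e + 1 := ⟨d - 1, by omega⟩
  simp only [Nat.add_sub_cancel] at h1
  rw [pow_succ, mul_comm (k ^ e) k] at h1
  exact Nat.le_of_mul_le_mul_right h1 (pow_pos hk e)

/-- a flatness bound is at least `1/3` -/
lemma FlatnessBound.third_le {d : ℕ} (hd : 1 ≤ d) {F : ℝ} (hF : FlatnessBound d F) :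
    1 / 3 ≤ F := by
  classical
  have hK : integerPoints (Set.Icc (fun _ : Fin d => (1 / 3 : ℝ)) (fun _ => 2 / 3)) = ∅ := by
    rw [Set.eq_empty_iff_forall_notMem]
    rintro x ⟨⟨h1, h2⟩, hx⟩
    obtain ⟨m, hm⟩ := hx ⟨0, hd⟩
    have h3 := h1 ⟨0, hd⟩
    have h4 := h2 ⟨0, hd⟩
    simp only [hm] at h3 h4
    have h5 : (0 : ℝ) < m := by linarith
    have h6 : (m : ℝ) < 1 := by linarith
    have h7 : (0 : ℤ) < m := by exact_mod_cast h5
    have h8 : m < 1 := by exact_mod_cast h6
    omega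
  obtain ⟨a, ha, hw⟩ := hF _ (convex_Icc _ _) isCompact_Icc
    (by
      refine ⟨fun _ => 1 / 2, ?_⟩
      rw [mem_interior]
      refine ⟨Set.pi Set.univ (fun _ => Set.Ioo (1 / 3) (2 / 3)), ?_,
        isOpen_set_pi Set.finite_univ (fun _ _ => isOpen_Ioo), ?_⟩
      · intro x hx
        exact ⟨fun i => (hx i trivial).1.le, fun i => (hx i trivial).2.le⟩
      · intro i _
        constructor <;> norm_num) hK
  obtain ⟨i0, hi0⟩ : ∃ i, a i ≠ 0 := by
    by_contra hcon
    push Not at hcon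
    exact ha (funext hcon)
  let x : Fin d → ℝ := fun i => if 0 ≤ a i then 2 / 3 else 1 / 3
  let y : Fin d → ℝ := fun i => if 0 ≤ a i then 1 / 3 else 2 / 3
  have hx : x ∈ Set.Icc (fun _ : Fin d => (1 / 3 : ℝ)) (fun _ => 2 / 3) := by
    constructor <;> intro i <;> simp only [x] <;> split_ifs <;> norm_num
  have hy : y ∈ Set.Icc (fun _ : Fin d => (1 / 3 : ℝ)) (fun _ => 2 / 3) := by
    constructor <;> intro i <;> simp only [y] <;> split_ifs <;> norm_num
  have h := hw x hx y hy
  rw [← Finset.sum_sub_distrib] at h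
  have hterm : ∀ i, (a i : ℝ) * x i - (a i : ℝ) * y i = |(a i : ℝ)| / 3 := by
    intro i
    simp only [x, y]
    split_ifs with h0
    · have h1 : (0 : ℝ) ≤ a i := by exact_mod_cast h0
      rw [abs_of_nonneg h1]; ring
    · have h1 : (a i : ℝ) < 0 := by
        have : a i < 0 := by omega
        exact_mod_cast this
      rw [abs_of_neg h1]; ring
  have h2 : |(a i0 : ℝ)| / 3 ≤ ∑ i, |(a i : ℝ)| / 3 :=
    Finset.single_le_sum (f := fun i => |(a i : ℝ)| / 3) (fun i _ => by positivity)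
      (Finset.mem_univ i0)
  have h3 : (1 : ℝ) ≤ |(a i0 : ℝ)| := by
    have : (1 : ℤ) ≤ |a i0| := Int.one_le_abs hi0
    exact_mod_cast this
  rw [Finset.sum_congr rfl (fun i _ => hterm i)] at h
  linarith

/-- If the integer points of a convex body are covered by `N` hyperplanes then some integer
direction has width at most `(N + 1) F` on the body. -/
lemma exists_width_le {d : ℕ} (hd : 1 ≤ d) {F : ℝ} (hF : FlatnessBound d F)
    {K : Set (Fin d → ℝ)} (hconv : Convex ℝ K) (hcomp : IsCompact K)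
    (hint : (interior K).Nonempty) {N : ℕ} (hcov : CoveredBy (integerPoints K) N) :
    ∃ a : Fin d → ℤ, a ≠ 0 ∧ ∀ x ∈ K, ∀ y ∈ K,
      (∑ i, (a i : ℝ) * x i) - (∑ i, (a i : ℝ) * y i) ≤ ((N : ℝ) + 1) * F := by
  classical
  obtain ⟨u, b, hu, hsub⟩ := hcov
  by_contra hcon
  push Not at hcon
  set k : ℕ := N + 1 with hk
  have hkR : (k : ℝ) = (N : ℝ) + 1 := by rw [hk]; push_cast; ring
  have hkpos : (0 : ℝ) < k := by rw [hkR]; positivity
  have hle : k ≤ N := by
    refine covered_classes (k := k) hd {z : Fin d → ℤ | (fun i => (z i : ℝ)) ∈ K} u b hu ?_ ?_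
    · intro z hz
      have h1 := hsub (show (fun i => (z i : ℝ)) ∈ integerPoints K from ⟨hz, fun i => ⟨z i, rfl⟩⟩)
      simp only [Set.mem_iUnion] at h1
      exact h1
    · intro c
      let p : Fin d → ℝ := fun i => ((c i).val : ℝ)
      let T : (Fin d → ℝ) → (Fin d → ℝ) := fun x => p + (k : ℝ) • x
      let T' : (Fin d → ℝ) → (Fin d → ℝ) := fun x => ((k : ℝ)⁻¹) • (x - p)
      have hTT' : ∀ x, T (T' x) = x := by
        intro x
        simp only [T, T']
        rw [smul_smul, mul_inv_cancel₀ hkpos.ne', one_smul]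
        abel
      have hT'T : ∀ x, T' (T x) = x := by
        intro x
        simp only [T, T']
        rw [add_sub_cancel_left, smul_smul, inv_mul_cancel₀ hkpos.ne', one_smul]
      have hcontT : Continuous T := by fun_prop
      have hcontT' : Continuous T' := by fun_prop
      have hKeq : T ⁻¹' K = T' '' K := by
        ext x
        constructor
        · intro hx; exact ⟨T x, hx, hT'T x⟩
        · rintro ⟨y, hy, rfl⟩; simpa [hTT'] using hy
      have hconv' : Convex ℝ (T ⁻¹' K) := by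
        intro x hx y hy s t hs ht hst
        have h1 : T (s • x + t • y) = s • T x + t • T y := by
          simp only [T]
          have : p = s • p + t • p := by rw [← add_smul, hst, one_smul]
          nth_rewrite 1 [this]
          rw [smul_add, smul_add, smul_add, smul_comm (k : ℝ) s, smul_comm (k : ℝ) t]
          abel
        show T (s • x + t • y) ∈ K
        rw [h1]
        exact hconv hx hy hs ht hst
      have hcomp' : IsCompact (T ⁻¹' K) := by
        rw [hKeq]; exact hcomp.image hcontT'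
      have hint' : (interior (T ⁻¹' K)).Nonempty := by
        obtain ⟨x, hx⟩ := hint
        refine ⟨T' x, ?_⟩
        have : T ⁻¹' (interior K) ⊆ interior (T ⁻¹' K) :=
          preimage_interior_subset_interior_preimage hcontT
        exact this (by simpa [hTT'] using hx)
      by_cases he : integerPoints (T ⁻¹' K) = ∅
      · obtain ⟨a, ha, hw⟩ := hF _ hconv' hcomp' hint' he
        exfalso
        obtain ⟨x, hx, y, hy, hxy⟩ := hcon a ha
        have hx' : T' x ∈ T ⁻¹' K := by simpa [hTT'] using hx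
        have hy' : T' y ∈ T ⁻¹' K := by simpa [hTT'] using hy
        have h1 := hw _ hx' _ hy'
        have h2 : (∑ i, (a i : ℝ) * x i) - (∑ i, (a i : ℝ) * y i)
            = (k : ℝ) * ((∑ i, (a i : ℝ) * T' x i) - (∑ i, (a i : ℝ) * T' y i)) := by
          rw [← Finset.sum_sub_distrib, ← Finset.sum_sub_distrib, Finset.mul_sum]
          refine Finset.sum_congr rfl fun i _ => ?_
          simp only [T', Pi.smul_apply, Pi.sub_apply, smul_eq_mul]
          field_simp
          ring
        have h3 : (k : ℝ) * ((∑ i, (a i : ℝ) * T' x i) - (∑ i, (a i : ℝ) * T' y i))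
            ≤ (k : ℝ) * F := mul_le_mul_of_nonneg_left h1 hkpos.le
        rw [hkR] at h2 h3
        linarith
      · obtain ⟨x, hx⟩ := Set.nonempty_iff_ne_empty.mpr he
        obtain ⟨hxK, hxi⟩ := hx
        choose m hm using hxi
        refine ⟨fun i => ((c i).val : ℤ) + (k : ℤ) * m i, ?_, ?_⟩
        · show (fun i => (((((c i).val : ℤ) + (k : ℤ) * m i : ℤ)) : ℝ)) ∈ K
          have h1 : (fun i => (((((c i).val : ℤ) + (k : ℤ) * m i : ℤ)) : ℝ)) = T x := by
            funext i
            simp only [T, p, Pi.add_apply, Pi.smul_apply, smul_eq_mul, hm i]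
            push_cast
            ring
          rw [h1]
          exact hxK
        · funext i
          simp only [red]
          push_cast
          rw [ZMod.natCast_self, zero_mul, add_zero]
          exact ZMod.natCast_zmod_val _
  omega

/-- An integer direction of width at most `W` gives at most `W + 1` parallel hyperplanes. -/
lemma parallel_of_width {d : ℕ} {K : Set (Fin d → ℝ)} (a : Fin d → ℤ) (ha : a ≠ 0) {W : ℝ}
    (hW : 0 ≤ W)
    (hw : ∀ x ∈ K, ∀ y ∈ K, (∑ i, (a i : ℝ) * x i) - (∑ i, (a i : ℝ) * y i) ≤ W) :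
    ∃ M : ℕ, (M : ℝ) ≤ W + 1 ∧ ParallelCoveredBy (integerPoints K) M := by
  classical
  have ha' : (fun i => (a i : ℝ)) ≠ 0 := by
    intro h
    apply ha
    funext i
    have := congrFun h i
    simpa using this
  -- integer values
  have hval : ∀ x ∈ integerPoints K, ∃ t : ℤ, ∑ i, (a i : ℝ) * x i = (t : ℝ) := by
    rintro x ⟨-, hx⟩
    choose m hm using hx
    refine ⟨∑ i, a i * m i, ?_⟩
    push_cast
    exact Finset.sum_congr rfl fun i _ => by rw [hm i]
  rcases Set.eq_empty_or_nonempty (integerPoints K) with he | ⟨x1, hx1⟩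
  · refine ⟨0, by push_cast; linarith, fun i => (a i : ℝ), Fin.elim0, ha', ?_⟩
    rw [he]; exact Set.empty_subset _
  obtain ⟨t1, ht1⟩ := hval x1 hx1
  let P : ℕ → Prop := fun s => ∃ x ∈ integerPoints K, ∑ i, (a i : ℝ) * x i
    = (t1 : ℝ) - ⌈W⌉₊ + (s : ℝ)
  have hP : ∃ s, P s := ⟨⌈W⌉₊, x1, hx1, by rw [ht1]; ring⟩
  obtain ⟨x0, hx0, hx0v⟩ := Nat.find_spec hP
  set s0 := Nat.find hP with hs0
  have hmin : ∀ x ∈ integerPoints K, ∃ j : ℕ, j ≤ ⌊W⌋₊ ∧
      ∑ i, (a i : ℝ) * x i = (t1 : ℝ) - ⌈W⌉₊ + (s0 : ℝ) + (j : ℝ) := by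
    intro x hx
    obtain ⟨t, ht⟩ := hval x hx
    have hlow : (t1 : ℝ) - ⌈W⌉₊ ≤ t := by
      have h1 := hw x1 hx1.1 x hx.1
      rw [ht1, ht] at h1
      have h2 := Nat.le_ceil W
      linarith
    have hlow' : t1 - (⌈W⌉₊ : ℤ) ≤ t := by exact_mod_cast hlow
    obtain ⟨s, hs⟩ := Int.eq_ofNat_of_zero_le (sub_nonneg.mpr hlow')
    have hsR : (t : ℝ) = (t1 : ℝ) - ⌈W⌉₊ + (s : ℝ) := by
      have h3 : t = t1 - (⌈W⌉₊ : ℤ) + (s : ℤ) := by omega
      rw [h3]; push_cast; ring
    have hPs : P s := ⟨x, hx, by rw [ht, hsR]⟩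
    have hle : s0 ≤ s := Nat.find_min' hP hPs
    refine ⟨s - s0, ?_, ?_⟩
    · apply Nat.le_floor
      have h1 := hw x hx.1 x0 hx0.1
      rw [hx0v, ht, hsR] at h1
      rw [Nat.cast_sub hle]
      linarith
    · rw [ht, hsR, Nat.cast_sub hle]; ring
  refine ⟨⌊W⌋₊ + 1, ?_, fun i => (a i : ℝ),
    fun j => (t1 : ℝ) - ⌈W⌉₊ + (s0 : ℝ) + ((j : ℕ) : ℝ), ha', ?_⟩
  · push_cast
    have := Nat.floor_le hW
    linarith
  · intro x hx
    obtain ⟨j, hj, hjv⟩ := hmin x hx
    simp only [Set.mem_iUnion]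
    exact ⟨⟨j, by omega⟩, hjv⟩

/-- `c(d) ≤ (3 Flt(d) + 1) / 2`. -/
theorem upper (d : ℕ) (hd : 1 ≤ d) (F : ℝ) (hF : FlatnessBound d F) :
    Admissible d ((3 * F + 1) / 2) := by
  have hF3 := hF.third_le hd
  refine ⟨by linarith, ?_⟩
  intro K hconv hcomp hint N hN hcov
  rcases Nat.lt_or_ge N 2 with hN1 | hN2
  · obtain rfl : N = 1 := by omega
    obtain ⟨u, b, hu, hsub⟩ := hcov
    refine ⟨1, ?_, u 0, b, hu 0, ?_⟩
    · push_cast; linarith
    · refine hsub.trans ?_
      intro x hx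
      simp only [Set.mem_iUnion] at hx ⊢
      obtain ⟨j, hj⟩ := hx
      refine ⟨j, ?_⟩
      rwa [Subsingleton.elim j 0] at hj ⊢
  · obtain ⟨a, ha, hw⟩ := exists_width_le hd hF hconv hcomp hint hcov
    obtain ⟨M, hM, hpar⟩ := parallel_of_width a ha (by positivity) hw
    refine ⟨M, hM.trans ?_, hpar⟩
    have h2 : (2 : ℝ) ≤ N := by exact_mod_cast hN2
    nlinarith

end Pool.Agent.Work.MP_b10815_co_flat
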