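import Pool.Agent.Work.MP_b10815_co_flat.Upper

set_option autoImplicit false

namespace Pool.Agent.Work.MP_b10815_co_flat

open Pool.Agent.Work.MP_b10815_co

variable {n : ℕ}

/-- all coordinates are integers -/
def IsInt (x : Fin n → ℝ) : Prop := ∀ i, ∃ m : ℤ, x i = (m : ℝ)

lemma finite_integerPoints {K : Set (Fin n → ℝ)} (hK : IsCompact K) : (integerPoints K).Finite := by
  obtain ⟨R, hR⟩ := hK.isBounded.subset_closedBall 0
  have hfin : (Set.Icc (fun _ : Fin n => -(⌈R⌉)) (fun _ => ⌈R⌉)).Finite := Set.finite_Icc _ _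
  refine (hfin.image (fun (z : Fin n → ℤ) (i : Fin n) => (z i : ℝ))).subset ?_
  rintro x ⟨hx, hxi⟩
  choose m hm using hxi
  refine ⟨m, ?_, by funext i; exact (hm i).symm⟩
  have h1 : ∀ i, |x i| ≤ R := by
    intro i
    have h2 := hR hx
    rw [mem_closedBall_zero_iff] at h2
    exact (norm_le_pi_norm x i).trans h2
  constructor <;> intro i
  · have h3 := (abs_le.mp (h1 i)).1
    have h4 : (-(⌈R⌉ : ℤ) : ℝ) ≤ (m i : ℝ) := by
      rw [← hm i]
      have := Int.le_ceil R
      linarith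
    exact_mod_cast h4
  · have h3 := (abs_le.mp (h1 i)).2
    have h4 : (m i : ℝ) ≤ (⌈R⌉ : ℤ) := by
      rw [← hm i]
      have := Int.le_ceil R
      linarith
    exact_mod_cast h4

/-- the cone from `y` over `K` -/
def join (y : Fin n → ℝ) (K : Set (Fin n → ℝ)) : Set (Fin n → ℝ) :=
  (fun p : ℝ × (Fin n → ℝ) => (1 - p.1) • y + p.1 • p.2) '' (Set.Icc 0 1 ×ˢ K)

lemma mem_join {y x : Fin n → ℝ} {K : Set (Fin n → ℝ)} :
    x ∈ join y K ↔ ∃ t : ℝ, 0 ≤ t ∧ t ≤ 1 ∧ ∃ k ∈ K, x = (1 - t) • y + t • k := by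
  constructor
  · rintro ⟨⟨t, k⟩, ⟨⟨h0, h1⟩, hk⟩, rfl⟩
    exact ⟨t, h0, h1, k, hk, rfl⟩
  · rintro ⟨t, h0, h1, k, hk, rfl⟩
    exact ⟨⟨t, k⟩, ⟨⟨h0, h1⟩, hk⟩, rfl⟩

lemma join_compact {y : Fin n → ℝ} {K : Set (Fin n → ℝ)} (hK : IsCompact K) :
    IsCompact (join y K) :=
  (isCompact_Icc.prod hK).image (by fun_prop)

lemma subset_join {y : Fin n → ℝ} {K : Set (Fin n → ℝ)} : K ⊆ join y K := by
  intro k hk
  exact mem_join.mpr ⟨1, zero_le_one, le_refl _, k, hk, by simp⟩

lemma self_mem_join {y : Fin n → ℝ} {K : Set (Fin n → ℝ)} (hne : K.Nonempty) : y ∈ join y K := by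
  obtain ⟨k, hk⟩ := hne
  exact mem_join.mpr ⟨0, le_refl _, zero_le_one, k, hk, by simp⟩

lemma join_convex {y : Fin n → ℝ} {K : Set (Fin n → ℝ)} (hK : Convex ℝ K) :
    Convex ℝ (join y K) := by
  intro x hx x' hx' α β hα hβ hαβ
  obtain ⟨t, h0, h1, k, hk, rfl⟩ := mem_join.mp hx
  obtain ⟨t', h0', h1', k', hk', rfl⟩ := mem_join.mp hx'
  rw [mem_join]
  rcases (add_nonneg (mul_nonneg hα h0) (mul_nonneg hβ h0')).eq_or_lt with hz | hpos
  · have ha : α * t = 0 := by nlinarith [mul_nonneg hα h0, mul_nonneg hβ h0']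
    have hb : β * t' = 0 := by nlinarith [mul_nonneg hα h0, mul_nonneg hβ h0']
    refine ⟨0, le_refl _, zero_le_one, k, hk, ?_⟩
    have e1 : α • ((1 - t) • y + t • k) + β • ((1 - t') • y + t' • k')
        = (α + β - α * t - β * t') • y + (α * t) • k + (β * t') • k' := by module
    rw [e1, ha, hb, hαβ]
    module
  · set t'' := α * t + β * t' with ht''
    refine ⟨t'', hpos.le, by nlinarith, (α * t / t'') • k + (β * t' / t'') • k', ?_, ?_⟩
    · refine hK hk hk' (by positivity) (by positivity) ?_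
      rw [← add_div, ← ht'', div_self hpos.ne']
    · rw [smul_add, smul_add, smul_add, smul_smul, smul_smul, smul_smul, smul_smul, smul_smul,
        smul_smul, mul_div_cancel₀ _ hpos.ne', mul_div_cancel₀ _ hpos.ne']
      have : (1 - t'') = α * (1 - t) + β * (1 - t') := by
        rw [ht'']; nlinarith
      rw [this, add_smul]
      abel

lemma join_mono_of_mem {y y' : Fin n → ℝ} {K : Set (Fin n → ℝ)} (hK : Convex ℝ K)
    (h : y' ∈ join y K) : join y' K ⊆ join y K := by
  intro x hx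
  obtain ⟨t, h0, h1, k, hk, rfl⟩ := mem_join.mp hx
  exact join_convex hK h (subset_join hk) (by linarith) h0 (by ring)

/-- antisymmetry -/
lemma mem_of_join_join {y y' : Fin n → ℝ} {K : Set (Fin n → ℝ)} (hK : Convex ℝ K)
    (h : y' ∈ join y K) (h' : y ∈ join y' K) (hyy : y' ≠ y) : y' ∈ K := by
  obtain ⟨t, h0, h1, k, hk, e⟩ := mem_join.mp h
  obtain ⟨s, s0, s1, l, hl, e'⟩ := mem_join.mp h'
  have hpos : 0 < (1 - t) * s + t := by
    rcases h0.eq_or_lt with h | h
    · subst h
      rcases s0.eq_or_lt with h2 | h2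
      · exfalso
        apply hyy
        rw [e]; simp
      · linarith
    · have : 0 ≤ (1 - t) * s := mul_nonneg (by linarith) s0
      linarith
  set D := (1 - t) * s + t with hD
  have key : D • y' = ((1 - t) * s) • l + t • k := by
    rw [hD]
    linear_combination (norm := module) e + (1 - t) • e'
  have hfin : y' = ((1 - t) * s / D) • l + (t / D) • k := by
    have := congrArg (fun v => D⁻¹ • v) key
    simp only [smul_smul, inv_mul_cancel₀ hpos.ne', one_smul, smul_add] at this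
    rw [this]
    congr 2 <;> ring_nf
  rw [hfin]
  refine hK hl hk (by have : 0 ≤ (1 - t) * s := mul_nonneg (by linarith) s0
                      positivity) (by positivity) ?_
  rw [← add_div, ← hD, div_self hpos.ne']


/-- if `y` is interior to the cone from `y` over `K`, then `y ∈ K` -/
lemma mem_of_mem_interior_join {y : Fin n → ℝ} {K : Set (Fin n → ℝ)} (hK : Convex ℝ K)
    (hne : K.Nonempty) (h : y ∈ interior (join y K)) : y ∈ K := by
  obtain ⟨k, hk⟩ := hne
  have hcont : ContinuousAt (fun δ : ℝ => y - δ • (k - y)) 0 := by fun_prop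
  have hnhds : join y K ∈ nhds (y - (0 : ℝ) • (k - y)) := by
    rw [zero_smul, sub_zero]
    exact mem_interior_iff_mem_nhds.mp h
  have hev : ∀ᶠ δ in nhds (0 : ℝ), y - δ • (k - y) ∈ join y K := hcont hnhds
  obtain ⟨ε, hε, hball⟩ := Metric.eventually_nhds_iff.mp hev
  have hmem := hball (y := ε / 2) (by rw [Real.dist_eq, sub_zero, abs_of_pos (by linarith)]; linarith)
  obtain ⟨t, h0, h1, l, hl, e⟩ := mem_join.mp hmem
  set δ := ε / 2 with hδ
  have hδpos : 0 < δ := by linarith
  have key : y = (δ / (δ + t)) • k + (t / (δ + t)) • l := by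
    have hpos : 0 < δ + t := by linarith
    have h2 : (δ + t) • y = δ • k + t • l := by
      linear_combination (norm := module) e
    have := congrArg (fun v => (δ + t)⁻¹ • v) h2
    simp only [smul_smul, inv_mul_cancel₀ hpos.ne', one_smul, smul_add] at this
    rw [this]
    congr 2 <;> ring_nf
  rw [key]
  refine hK hk hl (by positivity) (by positivity) ?_
  rw [← add_div, div_self (by linarith)]

/-- adding one integer vertex -/
lemma exists_vertex {K : Set (Fin n → ℝ)} (hK : Convex ℝ K) (hc : IsCompact K)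
    (hne : K.Nonempty) (he : integerPoints K = ∅) :
    ∃ y, IsInt y ∧ integerPoints (join y K) = {y} := by
  classical
  let P : ℕ → Prop := fun m => ∃ y : Fin n → ℝ, IsInt y ∧ (integerPoints (join y K)).ncard = m
  have hP : ∃ m, P m := ⟨_, fun _ => 0, fun _ => ⟨0, by simp⟩, rfl⟩
  obtain ⟨y, hy, hym⟩ := Nat.find_spec hP
  refine ⟨y, hy, ?_⟩
  have hyJ : y ∈ integerPoints (join y K) := ⟨self_mem_join hne, hy⟩
  refine Set.eq_singleton_iff_unique_mem.mpr ⟨hyJ, ?_⟩
  rintro y' ⟨hy'J, hy'i⟩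
  by_contra hyy
  have hy'K : y' ∉ K := by
    intro h
    have : y' ∈ integerPoints K := ⟨h, hy'i⟩
    rw [he] at this
    exact this
  have hnot : y ∉ join y' K := fun h => hy'K (mem_of_join_join hK hy'J h hyy)
  have hss : integerPoints (join y' K) ⊂ integerPoints (join y K) := by
    refine ⟨fun x hx => ⟨join_mono_of_mem hK hy'J hx.1, hx.2⟩, ?_⟩
    intro hsub
    exact hnot (hsub hyJ).1
  have hlt := Set.ncard_lt_ncard hss (finite_integerPoints (join_compact hc))
  rw [hym] at hlt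
  exact Nat.find_min hP hlt ⟨y', hy'i, rfl⟩

/-- there is an integer point seen from the integer point `y` through the interior of `K` -/
lemma exists_candidate {K : Set (Fin n → ℝ)} (hint : (interior K).Nonempty) {y : Fin n → ℝ}
    (hy : IsInt y) :
    ∃ z, IsInt z ∧ ∃ θ : ℝ, 0 < θ ∧ θ < 1 ∧ (1 - θ) • y + θ • z ∈ interior K := by
  obtain ⟨q, hq⟩ := hint
  obtain ⟨ρ, hρ, hball⟩ := Metric.isOpen_iff.mp isOpen_interior q hq
  obtain ⟨D, hD⟩ := exists_nat_gt (max (1 / ρ) 1)
  have hD1 : (1 : ℝ) < D := lt_of_le_of_lt (le_max_right _ _) hD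
  have hDρ : 1 / ρ < D := lt_of_le_of_lt (le_max_left _ _) hD
  have hDpos : (0 : ℝ) < D := by linarith
  choose m hm using hy
  refine ⟨fun i => ((m i + ⌊(D : ℝ) * (q i - y i)⌋ : ℤ) : ℝ), fun i => ⟨_, rfl⟩, 1 / D,
    by positivity, by rw [div_lt_one hDpos]; exact hD1, ?_⟩
  apply hball
  rw [Metric.mem_ball, dist_pi_lt_iff hρ]
  intro i
  rw [Real.dist_eq]
  simp only [Pi.add_apply, Pi.smul_apply, smul_eq_mul]
  push_cast
  rw [← hm i]
  have h1 := Int.floor_le ((D : ℝ) * (q i - y i))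
  have h2 := Int.lt_floor_add_one ((D : ℝ) * (q i - y i))
  have h3 : (1 - 1 / (D : ℝ)) * y i + 1 / (D : ℝ) * (y i + (⌊(D : ℝ) * (q i - y i)⌋ : ℝ)) - q i
      = ((⌊(D : ℝ) * (q i - y i)⌋ : ℝ) - (D : ℝ) * (q i - y i)) / D := by
    field_simp
    ring
  rw [h3, abs_div, abs_of_pos hDpos, div_lt_iff₀ hDpos]
  have h4 : |(⌊(D : ℝ) * (q i - y i)⌋ : ℝ) - (D : ℝ) * (q i - y i)| ≤ 1 := by
    rw [abs_le]; constructor <;> linarith
  have h5 : 1 < ρ * D := by
    rw [div_lt_iff₀ hρ] at hDρ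
    linarith
  linarith

/-- adding a second integer vertex -/
lemma exists_second {K : Set (Fin n → ℝ)} (hK : Convex ℝ K) (hc : IsCompact K)
    (hint : (interior K).Nonempty) {y : Fin n → ℝ} (hyK : integerPoints K = {y})
    (hyint : y ∉ interior K) :
    ∃ z, IsInt z ∧ (∃ θ : ℝ, 0 < θ ∧ θ < 1 ∧ (1 - θ) • y + θ • z ∈ interior K) ∧
      ∀ x ∈ interior (join z K), ¬ IsInt x := by
  classical
  have hne : K.Nonempty := hint.mono interior_subset
  have hymem : y ∈ integerPoints K := by rw [hyK]; exact rfl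
  obtain ⟨hy1, hyi⟩ := hymem
  let Q : (Fin n → ℝ) → Prop := fun z => IsInt z ∧
    ∃ θ : ℝ, 0 < θ ∧ θ < 1 ∧ (1 - θ) • y + θ • z ∈ interior K
  let P : ℕ → Prop := fun m => ∃ z : Fin n → ℝ, Q z ∧ (integerPoints (join z K)).ncard = m
  obtain ⟨z0, hz0, hθ0⟩ := exists_candidate hint hyi
  have hP : ∃ m, P m := ⟨_, z0, ⟨hz0, hθ0⟩, rfl⟩
  obtain ⟨z, ⟨hzi, θ, hθ0, hθ1, hq⟩, hzm⟩ := Nat.find_spec hP
  refine ⟨z, hzi, ⟨θ, hθ0, hθ1, hq⟩, ?_⟩
  intro x hx hxi
  -- separation
  obtain ⟨f, hf⟩ := geometric_hahn_banach_open_point hK.interior isOpen_interior hyint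
  have hfK : ∀ k ∈ K, f k ≤ f y := by
    intro k hk
    have h1 : k ∈ closure (interior K) := by
      rw [hK.closure_interior_eq_closure_of_nonempty_interior hint]
      exact subset_closure hk
    have h2 : closure (interior K) ⊆ {k | f k ≤ f y} := by
      apply closure_minimal
      · intro k hk; exact (hf k hk).le
      · exact isClosed_le f.continuous continuous_const
    exact h2 h1
  have hfz : f z < f y := by
    have h1 := hf _ hq
    rw [map_add, map_smul, map_smul, smul_eq_mul, smul_eq_mul] at h1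
    nlinarith
  have hzy : z ≠ y := by
    rintro rfl
    exact lt_irrefl _ hfz
  have hzK : z ∉ K := by
    intro h
    have : z ∈ integerPoints K := ⟨h, hzi⟩
    rw [hyK] at this
    exact hzy this
  have hxz : x ≠ z := by
    rintro rfl
    exact hzK (mem_of_mem_interior_join hK hne hx)
  have hxy : x ≠ y := by
    rintro rfl
    -- `y` would be interior to the join
    obtain ⟨v, hv⟩ : ∃ v : Fin n → ℝ, f v > 0 := by
      refine ⟨x - z, ?_⟩
      rw [map_sub]; linarith
    have hcont : ContinuousAt (fun δ : ℝ => x + δ • v) 0 := by fun_prop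
    have hnhds : join z K ∈ nhds (x + (0 : ℝ) • v) := by
      rw [zero_smul, add_zero]
      exact mem_interior_iff_mem_nhds.mp hx
    have hev : ∀ᶠ δ in nhds (0 : ℝ), x + δ • v ∈ join z K := hcont hnhds
    obtain ⟨ε, hε, hball⟩ := Metric.eventually_nhds_iff.mp hev
    have hmem := hball (y := ε / 2)
      (by rw [Real.dist_eq, sub_zero, abs_of_pos (by linarith)]; linarith)
    obtain ⟨t, h0, h1, l, hl, e⟩ := mem_join.mp hmem
    have h2 := congrArg f e
    rw [map_add, map_add, map_smul, map_smul, map_smul, smul_eq_mul, smul_eq_mul,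
      smul_eq_mul] at h2
    have h3 := hfK l hl
    nlinarith [mul_pos (half_pos hε) hv, mul_le_mul_of_nonneg_left h3 h0,
      mul_le_mul_of_nonneg_left hfz.le (sub_nonneg.mpr h1)]
  have hxK : x ∉ K := by
    intro h
    have : x ∈ integerPoints K := ⟨h, hxi⟩
    rw [hyK] at this
    exact hxy this
  have hxJ : x ∈ join z K := interior_subset hx
  obtain ⟨t, h0, h1, k, hk, e⟩ := mem_join.mp hxJ
  have ht1 : t < 1 := by
    rcases h1.eq_or_lt with h | h
    · exfalso
      subst h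
      apply hxK
      rw [e]; simpa using hk
    · exact h
  have hQx : Q x := by
    refine ⟨hxi, θ, hθ0, hθ1, ?_⟩
    have e1 : (1 - θ) • y + θ • x
        = (1 - t) • ((1 - θ) • y + θ • z) + t • ((1 - θ) • y + θ • k) := by
      rw [e]; module
    rw [e1]
    exact hK.combo_interior_self_mem_interior hq
      (hK hy1 hk (by linarith) hθ0.le (by ring)) (by linarith) h0 (by ring)
  have hnot : z ∉ join x K := fun h => hxK (mem_of_join_join hK hxJ h hxz)
  have hss : integerPoints (join x K) ⊂ integerPoints (join z K) := by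
    refine ⟨fun w hw => ⟨join_mono_of_mem hK hxJ hw.1, hw.2⟩, ?_⟩
    intro hsub
    exact hnot (hsub ⟨self_mem_join hne, hzi⟩).1
  have hlt := Set.ncard_lt_ncard hss (finite_integerPoints (join_compact hc))
  rw [hzm] at hlt
  exact Nat.find_min hP hlt ⟨x, hQx, rfl⟩

end Pool.Agent.Work.MP_b10815_co_flat
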